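import Pool.Agent.TH282.RG.Sub

/-!
# Rigid lattices in a projective module over a birational overring
-/

set_option autoImplicit false
set_option linter.unusedSectionVars false

namespace Pool.Agent.TH282.RG

universe u v

/-- every self-extension of `M` splits -/
def Rigid (R M : Type u) [CommRing R] [AddCommGroup M] [Module R M] : Prop :=
  ∀ (E : Type u) [AddCommGroup E] [Module R E] (f : M →ₗ[R] E) (g : E →ₗ[R] M),
    Function.Injective f → Function.Surjective g → LinearMap.range f = LinearMap.ker g →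
      ∃ s : M →ₗ[R] E, g ∘ₗ s = LinearMap.id

theorem Rigid.of_equiv {R M N : Type u} [CommRing R] [AddCommGroup M] [Module R M] [AddCommGroup N]
    [Module R N] (h : Rigid R M) (e : M ≃ₗ[R] N) : Rigid R N := by
  intro E _ _ f g hf hg hfg
  obtain ⟨s, hs⟩ := h E (f ∘ₗ e.toLinearMap) (e.symm.toLinearMap ∘ₗ g)
    (hf.comp e.injective) (e.symm.surjective.comp hg) (by
      rw [LinearMap.range_comp, LinearEquiv.range, Submodule.map_top, hfg]
      ext x
      simp)
  refine ⟨s ∘ₗ e.symm.toLinearMap, ?_⟩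
  ext x
  have := LinearMap.congr_fun hs (e.symm x)
  simp only [LinearMap.comp_apply, LinearMap.id_apply, LinearEquiv.coe_coe] at this ⊢
  exact e.symm.injective this

section

variable {k : Type v} {R D F : Type u} [Field k] [CommRing R] [CommRing D] [AddCommGroup F]
  [Algebra k R] [Algebra k D] [Algebra R D] [Module R F] [Module D F] [Module k F]
  [IsScalarTower k R D] [IsScalarTower k R F] [IsScalarTower k D F] [IsScalarTower R D F]

variable (k) in
/-- the `D`-linear operators among the `k`-linear ones -/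
def Dlin (D V : Type*) [CommRing D] [Algebra k D] [AddCommGroup V] [Module k V] [Module D V]
    [IsScalarTower k D V] : Submodule k (Module.End k V) where
  carrier := {b | ∀ (d : D) (x : V), b (d • x) = d • b x}
  add_mem' := fun {a b} ha hb d x => by rw [LinearMap.add_apply, ha, hb, LinearMap.add_apply, smul_add]
  zero_mem' := fun d x => by simp
  smul_mem' := fun c a ha d x => by
    rw [LinearMap.smul_apply, ha, LinearMap.smul_apply, ← algebraMap_smul D c (d • a x),
      ← algebraMap_smul D c (a x), smul_comm]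

variable (k) in
/-- the operators of multiplication by elements of `R` -/
def Mul (R V : Type*) [CommRing R] [Algebra k R] [AddCommGroup V] [Module k V] [Module R V]
    [IsScalarTower k R V] : Set (Module.End k V) :=
  Set.range fun r : R => Algebra.lsmul k k V r

/-- the largest `R`-submodule in the preimage of `L` -/
def pre (Y : Submodule D F) (L : Submodule k (F ⧸ Y)) : Submodule R F where
  carrier := {f | ∀ r : R, Y.mkQ (r • f) ∈ L}
  add_mem' := fun {a b} ha hb r => by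
    rw [smul_add, map_add]
    exact L.add_mem (ha r) (hb r)
  zero_mem' := fun r => by simp
  smul_mem' := fun c a ha r => by
    rw [smul_smul]
    exact ha _

theorem smul_mem_lat (y : R) (hyc : ∀ d : D, ∃ r : R, algebraMap R D r = algebraMap R D y * d)
    (M : Submodule R F) (hM : Submodule.span D (M : Set F) = ⊤) (f : F) : y • f ∈ M := by
  let Z : Submodule D F :=
    { carrier := {f | ∀ d : D, y • (d • f) ∈ M}
      add_mem' := fun {a b} ha hb d => by
        rw [smul_add, smul_add]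
        exact M.add_mem (ha d) (hb d)
      zero_mem' := fun d => by simp
      smul_mem' := fun c a ha d => by
        rw [smul_smul]
        exact ha _ }
  have h : (⊤ : Submodule D F) ≤ Z := by
    rw [← hM, Submodule.span_le]
    intro m hm d
    obtain ⟨r, hr⟩ := hyc d
    rw [← algebraMap_smul D y (d • m), smul_smul, ← hr, algebraMap_smul]
    exact M.smul_mem r hm
  have := h (Submodule.mem_top (x := f)) 1
  rwa [one_smul] at this

/-- the linear map of a splitting extends to a `D`-linear one -/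
theorem extend (y : R) (hyc : ∀ d : D, ∃ r : R, algebraMap R D r = algebraMap R D y * d)
    (hyF : ∀ f : F, y • f = 0 → f = 0) (M : Submodule R F)
    (hM : Submodule.span D (M : Set F) = ⊤) (ψ : M →ₗ[R] F) :
    ∃ Ψ : F →ₗ[D] F, ∀ m : M, Ψ m = ψ m := by
  have hyinj : ∀ f g : F, y • f = y • g → f = g := fun f g h => by
    rw [← sub_eq_zero]
    apply hyF
    rw [smul_sub, h, sub_self]
  have hcomm : ∀ (d : D) (f : F), y • (d • f) = d • (y • f) := fun d f => by
    rw [← algebraMap_smul D y (d • f), ← algebraMap_smul D y f, smul_comm]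
  have hyM := smul_mem_lat y hyc M hM
  have h1 : ∀ (d : D) (f : F), ψ ⟨y • (d • f), hyM _⟩ = d • ψ ⟨y • f, hyM _⟩ := by
    intro d f
    apply hyinj
    obtain ⟨r, hr⟩ := hyc d
    have e1 : y • (⟨y • (d • f), hyM _⟩ : M) = r • (⟨y • f, hyM _⟩ : M) := by
      apply Subtype.ext
      change y • (y • (d • f)) = r • (y • f)
      rw [← algebraMap_smul D r, hr, ← smul_smul, algebraMap_smul, hcomm]
    rw [← map_smul, e1, map_smul, ← algebraMap_smul D r, hr, ← smul_smul, algebraMap_smul]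
  let Z : Submodule D F :=
    { carrier := {f | ∃ f', y • f' = ψ ⟨y • f, hyM _⟩}
      add_mem' := fun {a b} ha hb => by
        obtain ⟨a', ha'⟩ := ha
        obtain ⟨b', hb'⟩ := hb
        refine ⟨a' + b', ?_⟩
        rw [smul_add, ha', hb', ← map_add]
        congr 1
        apply Subtype.ext
        exact (smul_add y a b).symm
      zero_mem' := ⟨0, by
        have h0 : (⟨y • (0 : F), hyM _⟩ : M) = 0 := Subtype.ext (smul_zero y)
        rw [h0, map_zero, smul_zero]⟩
      smul_mem' := fun c a ha => by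
        obtain ⟨a', ha'⟩ := ha
        refine ⟨c • a', ?_⟩
        rw [h1, ← ha', hcomm] }
  have hZ : (⊤ : Submodule D F) ≤ Z := by
    rw [← hM, Submodule.span_le]
    intro m hm
    refine ⟨ψ ⟨m, hm⟩, ?_⟩
    rw [← map_smul]
    rfl
  have hex : ∀ f : F, ∃ f', y • f' = ψ ⟨y • f, hyM _⟩ := fun f => hZ Submodule.mem_top
  choose Ψ hΨ using hex
  refine ⟨{ toFun := Ψ, map_add' := ?_, map_smul' := ?_ }, ?_⟩
  · intro a b
    apply hyinj
    rw [smul_add, hΨ, hΨ, hΨ, ← map_add]
    congr 1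
    apply Subtype.ext
    exact smul_add y a b
  · intro d a
    apply hyinj
    rw [hΨ, h1, RingHom.id_apply, hcomm, hΨ]
  · intro m
    apply hyinj
    change y • Ψ m = _
    rw [hΨ, ← map_smul]
    rfl

variable (Y : Submodule D F)

/-- the image of an `R`-submodule in the quotient -/
def im (M : Submodule R F) : Submodule k (F ⧸ Y) :=
  (M.restrictScalars k).map (Y.mkQ.restrictScalars k)

theorem mem_im {M : Submodule R F} {f : F} (hYM : ∀ f ∈ Y, f ∈ M) :
    Y.mkQ f ∈ im (k := k) Y M ↔ f ∈ M := by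
  constructor
  · rintro ⟨g, hg, hgf⟩
    change Y.mkQ g = Y.mkQ f at hgf
    rw [← sub_eq_zero, ← map_sub, Submodule.mkQ_apply, Submodule.Quotient.mk_eq_zero] at hgf
    have := M.sub_mem hg (hYM _ hgf)
    rwa [sub_sub_cancel] at this
  · intro h
    exact ⟨f, h, rfl⟩

/-- a rigid lattice gives a rigid subspace -/
theorem rigSub_of_rigid (y : R) (hyc : ∀ d : D, ∃ r : R, algebraMap R D r = algebraMap R D y * d)
    (hyF : ∀ f : F, y • f = 0 → f = 0) (M : Submodule R F)
    (hM : Submodule.span D (M : Set F) = ⊤) (hY : ∀ f, f ∈ Y ↔ ∃ g, y • g = f)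
    (hR : Rigid R M) : RigSub (Mul k R (F ⧸ Y)) (Dlin k D (F ⧸ Y)) (im Y M) := by
  have hYM : ∀ f ∈ Y, f ∈ M := fun f hf => by
    obtain ⟨g, rfl⟩ := (hY f).mp hf
    exact smul_mem_lat y hyc M hM g
  intro g hg
  have hg' : ∀ (r : R) (m : M), g (Y.mkQ (r • (m : F))) - r • g (Y.mkQ (m : F)) ∈ im (k := k) Y M :=
    fun r m => hg _ ⟨r, rfl⟩ _ ⟨m, m.2, rfl⟩
  have hst : ∀ (r : R) (x : F ⧸ Y), x ∈ im (k := k) Y M → r • x ∈ im (k := k) Y M := by
    rintro r _ ⟨m, hm, rfl⟩
    exact ⟨r • m, M.smul_mem r hm, rfl⟩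
  -- the extension
  let E : Submodule R (F × M) :=
    { carrier := {z | Y.mkQ z.1 - g (Y.mkQ (z.2 : F)) ∈ im (k := k) Y M}
      add_mem' := fun {a b} ha hb => by
        have : Y.mkQ (a + b).1 - g (Y.mkQ ((a + b).2 : F)) =
            (Y.mkQ a.1 - g (Y.mkQ (a.2 : F))) + (Y.mkQ b.1 - g (Y.mkQ (b.2 : F))) := by
          rw [Prod.fst_add, Prod.snd_add, Submodule.coe_add, map_add, map_add, map_add]
          abel
        change Y.mkQ (a + b).1 - g (Y.mkQ ((a + b).2 : F)) ∈ im (k := k) Y M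
        rw [this]
        exact Submodule.add_mem _ ha hb
      zero_mem' := by
        change Y.mkQ (0 : F) - g (Y.mkQ ((0 : M) : F)) ∈ im (k := k) Y M
        simp
      smul_mem' := fun r a ha => by
        have : Y.mkQ (r • a).1 - g (Y.mkQ ((r • a).2 : F)) =
            r • (Y.mkQ a.1 - g (Y.mkQ (a.2 : F))) -
              (g (Y.mkQ (r • (a.2 : F))) - r • g (Y.mkQ (a.2 : F))) := by
          have e1 : Y.mkQ (r • a).1 = r • Y.mkQ a.1 := rfl
          have e2 : ((r • a).2 : F) = r • (a.2 : F) := rfl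
          rw [e1, e2, smul_sub]
          abel
        change Y.mkQ (r • a).1 - g (Y.mkQ ((r • a).2 : F)) ∈ im (k := k) Y M
        rw [this]
        exact Submodule.sub_mem _ (hst _ _ ha) (hg' r a.2) }
  have hE : ∀ z : F × M, z ∈ E ↔ Y.mkQ z.1 - g (Y.mkQ (z.2 : F)) ∈ im (k := k) Y M := fun z => Iff.rfl
  let i : M →ₗ[R] E := LinearMap.codRestrict E (LinearMap.prod M.subtype 0) (fun m => by
    rw [hE]
    change Y.mkQ (m : F) - g (Y.mkQ ((0 : M) : F)) ∈ im (k := k) Y M
    rw [ZeroMemClass.coe_zero, map_zero, map_zero, sub_zero]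
    exact (mem_im Y hYM).mpr m.2)
  let p : E →ₗ[R] M := LinearMap.snd R F M ∘ₗ E.subtype
  obtain ⟨s, hs⟩ := hR E i p (by
    intro a b hab
    have := congrArg (fun z : E => z.1.1) hab
    exact Subtype.ext this) (by
    intro m
    obtain ⟨f, hf⟩ := Y.mkQ_surjective (g (Y.mkQ (m : F)))
    refine ⟨⟨(f, m), ?_⟩, rfl⟩
    rw [hE]
    change Y.mkQ f - g (Y.mkQ (m : F)) ∈ im (k := k) Y M
    rw [hf, sub_self]
    exact Submodule.zero_mem _) (by
    apply le_antisymm
    · rintro _ ⟨m, rfl⟩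
      rfl
    · rintro ⟨⟨f, m⟩, hz⟩ hm
      change m = 0 at hm
      subst hm
      rw [hE] at hz
      change Y.mkQ f - g (Y.mkQ ((0 : M) : F)) ∈ im (k := k) Y M at hz
      rw [ZeroMemClass.coe_zero, map_zero, map_zero, sub_zero, mem_im Y hYM] at hz
      exact ⟨⟨f, hz⟩, rfl⟩)
  let ψ : M →ₗ[R] F := LinearMap.fst R F M ∘ₗ E.subtype ∘ₗ s
  have hψ : ∀ m : M, Y.mkQ (ψ m) - g (Y.mkQ (m : F)) ∈ im (k := k) Y M := by
    intro m
    have h1 := (s m).2
    rw [hE] at h1
    have h2 : (s m).1.2 = m := LinearMap.congr_fun hs m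
    rw [h2] at h1
    exact h1
  obtain ⟨Ψ, hΨ⟩ := extend y hyc hyF M hM ψ
  have hΨY : Y ≤ Y.comap Ψ := by
    intro f hf
    obtain ⟨g, rfl⟩ := (hY f).mp hf
    rw [Submodule.mem_comap, hY]
    exact ⟨Ψ g, by rw [← algebraMap_smul D y g, map_smul, algebraMap_smul]⟩
  refine ⟨(Y.mapQ Y Ψ hΨY).restrictScalars k, fun d x => map_smul (Y.mapQ Y Ψ hΨY) d x, ?_⟩
  rintro _ ⟨m, hm, rfl⟩
  change g (Y.mkQ m) - Y.mkQ (Ψ m) ∈ _
  have h3 := hψ ⟨m, hm⟩
  rw [← hΨ ⟨m, hm⟩] at h3
  rw [← neg_sub]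
  exact neg_mem h3

/-- surjective modulo `Y` implies bijective -/
theorem bij_of_mod [Module.Finite D F] (y : R) (hyJ : algebraMap R D y ∈ (⊥ : Ideal D).jacobson)
    (hY : ∀ f, f ∈ Y ↔ ∃ g, y • g = f) (Ψ : F →ₗ[D] F)
    (h : ∀ x : F ⧸ Y, ∃ f, Y.mkQ (Ψ f) = x) : Function.Bijective Ψ := by
  have hsurj : Function.Surjective Ψ := by
    rw [← LinearMap.range_eq_top]
    have h1 : (⊤ : Submodule D F) ≤ LinearMap.range Ψ ⊔ (Ideal.span {algebraMap R D y}) • ⊤ := by
      intro f _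
      obtain ⟨g, hg⟩ := h (Y.mkQ f)
      rw [← sub_eq_zero, ← map_sub, Submodule.mkQ_apply, Submodule.Quotient.mk_eq_zero, hY] at hg
      obtain ⟨e, he⟩ := hg
      have : f = Ψ g + algebraMap R D y • (-e) := by
        rw [smul_neg, algebraMap_smul, he]
        abel
      rw [this]
      exact Submodule.add_mem_sup ⟨g, rfl⟩
        (Submodule.smul_mem_smul (Ideal.mem_span_singleton_self _) trivial)
    have h2 := Submodule.le_of_le_smul_of_le_jacobson_bot (N' := ⊤) (N := LinearMap.range Ψ)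
      (I := Ideal.span {algebraMap R D y}) Module.Finite.fg_top
      ((Ideal.span_singleton_le_iff_mem _).mpr hyJ) h1
    exact top_le_iff.mp h2
  exact ⟨OrzechProperty.injective_of_surjective_endomorphism Ψ hsurj, hsurj⟩

/-- **Finitely many rigid lattices.** -/
theorem finB [Module.Finite D F] [Module.Projective D F] (y : R)
    (hyc : ∀ d : D, ∃ r : R, algebraMap R D r = algebraMap R D y * d)
    (hyJ : algebraMap R D y ∈ (⊥ : Ideal D).jacobson)
    (hyF : ∀ f : F, y • f = 0 → f = 0) (hY : ∀ f, f ∈ Y ↔ ∃ g, y • g = f)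
    [FiniteDimensional k (F ⧸ Y)] :
    ∃ T : Set (Submodule R F), T.Finite ∧ ∀ M : Submodule R F, Submodule.span D (M : Set F) = ⊤ →
      Rigid R M → ∃ M₀ ∈ T, Nonempty (M₀ ≃ₗ[R] M) := by
  obtain ⟨S, hS1, hS2, hS3⟩ := fin_sub (Mul k R (F ⧸ Y)) (Dlin k D (F ⧸ Y)) (fun d x => rfl) (by
    rintro b hb _ ⟨r, rfl⟩
    ext x
    change b (r • x) = r • b x
    rw [← algebraMap_smul D r x, hb, algebraMap_smul])
  refine ⟨(fun L => pre (R := R) Y L) '' S, hS1.image _, ?_⟩
  intro M hM hR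
  obtain ⟨L₀, hL₀, b, hb, hbij, hbL⟩ := hS3 (im Y M) (by
    rintro _ ⟨r, rfl⟩ _ ⟨m, hm, rfl⟩
    exact ⟨r • m, M.smul_mem r hm, rfl⟩) (rigSub_of_rigid Y y hyc hyF M hM hY hR)
  have hYM : ∀ f ∈ Y, f ∈ M := fun f hf => by
    obtain ⟨g, rfl⟩ := (hY f).mp hf
    exact smul_mem_lat y hyc M hM g
  refine ⟨_, ⟨L₀, hL₀, rfl⟩, ?_⟩
  let b' : (F ⧸ Y) →ₗ[D] (F ⧸ Y) :=
    { toFun := b, map_add' := fun x y => map_add b x y, map_smul' := fun d x => hb d x }
  obtain ⟨Ψ, hΨ⟩ := Module.projective_lifting_property Y.mkQ (b' ∘ₗ Y.mkQ) Y.mkQ_surjective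
  have hΨ' : ∀ f, Y.mkQ (Ψ f) = b (Y.mkQ f) := fun f => LinearMap.congr_fun hΨ f
  have hΨb : Function.Bijective Ψ := bij_of_mod Y y hyJ hY Ψ (by
    intro x
    obtain ⟨z, hz⟩ := hbij.2 x
    obtain ⟨f, rfl⟩ := Y.mkQ_surjective z
    exact ⟨f, by rw [hΨ', hz]⟩)
  have hmem : ∀ f : F, f ∈ pre (R := R) Y L₀ ↔ Ψ f ∈ M := by
    intro f
    have h1 : Ψ f ∈ M ↔ Y.mkQ f ∈ L₀ := by
      rw [← mem_im (k := k) Y hYM, hΨ', ← hbL]
      exact ⟨fun ⟨z, hz, hz'⟩ => hbij.1 hz' ▸ hz, fun h => ⟨_, h, rfl⟩⟩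
    rw [h1]
    constructor
    · intro h
      have := h 1
      rwa [one_smul] at this
    · intro h r
      exact hS2 L₀ hL₀ _ ⟨r, rfl⟩ _ h
  let e : F ≃ₗ[R] F := (LinearEquiv.ofBijective Ψ hΨb).restrictScalars R
  have he : (pre (R := R) Y L₀).map e.toLinearMap = M := by
    ext f
    constructor
    · rintro ⟨g, hg, rfl⟩
      exact (hmem g).mp hg
    · intro hf
      obtain ⟨g, rfl⟩ := e.surjective f
      exact ⟨g, (hmem g).mpr hf, rfl⟩
  exact ⟨(e.submoduleMap _).trans (LinearEquiv.ofEq _ _ he)⟩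

end

end Pool.Agent.TH282.RG
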