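import Pool.Agent.TH282.RG.Ded
import Pool.Agent.TH282.RG.Lat

/-!
# Finite length and finite dimension; presentations
-/

set_option autoImplicit false
set_option linter.unusedSectionVars false

namespace Pool.Agent.TH282.RG

universe u v

open IsLocalRing

section

variable {k : Type v} [Field k] {R : Type u} [CommRing R] [IsLocalRing R] [Algebra k R]

theorem finite_of_finiteLength [Module.Finite k (ResidueField R)] {M : Type u} [AddCommGroup M]
    [Module R M] (h : IsFiniteLength R M) :
    ∀ [Module k M] [IsScalarTower k R M], Module.Finite k M := by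
  induction h with
  | of_subsingleton =>
    intro _ _
    infer_instance
  | @of_simple_quotient M _ _ N hs h ih =>
    intro _ _
    have h1 : Module.Finite k N := ih
    obtain ⟨I, hI, ⟨e⟩⟩ := (isSimpleModule_iff_quot_maximal (R := R) (M := M ⧸ N)).mp hs
    have hI' := IsLocalRing.eq_maximalIdeal hI
    subst hI'
    have h3 : Module.Finite k (R ⧸ maximalIdeal R) := inferInstanceAs (Module.Finite k (ResidueField R))
    have h2 : Module.Finite k (M ⧸ N) := Module.Finite.equiv (e.restrictScalars k).symm
    have h4 : Module.Finite k (N.restrictScalars k) := h1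
    have h5 : Module.Finite k (M ⧸ N.restrictScalars k) :=
      Module.Finite.equiv (Submodule.Quotient.restrictScalarsEquiv k N).symm
    exact Module.Finite.of_submodule_quotient (N.restrictScalars k)

end

section

variable {R : Type*} [CommRing R]

theorem finiteLength_pi {ι : Type*} [Fintype ι] {M : Type*} [AddCommGroup M] [Module R M]
    (h : IsFiniteLength R M) : IsFiniteLength R (ι → M) := by
  rw [← Module.length_ne_top_iff] at h ⊢
  rw [Module.length_pi_of_fintype]
  exact (WithTop.sum_ne_top).mpr fun i _ => h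

theorem finiteLength_of_killed {Q : Type*} [AddCommGroup Q] [Module R Q] [Module.Finite R Q] (y : R)
    (hy : IsFiniteLength R (R ⧸ Ideal.span {y})) (h : ∀ q : Q, y • q = 0) : IsFiniteLength R Q := by
  obtain ⟨n, f, hf⟩ := Module.Finite.exists_fin' R Q
  have h1 : IsFiniteLength R (Fin n → R ⧸ Ideal.span {y}) := finiteLength_pi hy
  -- the factored map
  let g : Fin n → ((R ⧸ Ideal.span {y}) →ₗ[R] Q) := fun i =>
    Submodule.liftQ (Ideal.span {y}) (LinearMap.toSpanSingleton R Q (f (Pi.single i 1))) (by
      rw [Ideal.span, Submodule.span_le]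
      intro z hz
      rw [Set.mem_singleton_iff] at hz
      subst hz
      exact h _)
  let G : (Fin n → R ⧸ Ideal.span {y}) →ₗ[R] Q := LinearMap.lsum R (fun _ => R ⧸ Ideal.span {y}) R g
  refine h1.of_surjective (f := G) ?_
  intro q
  obtain ⟨v, rfl⟩ := hf q
  refine ⟨fun i => Ideal.Quotient.mk _ (v i), ?_⟩
  have h2 : v = ∑ i, v i • Pi.single i (1 : R) := by
    ext j
    simp [Finset.sum_apply, Pi.single_apply]
  conv_rhs => rw [h2]
  have h3 : G (fun i => Ideal.Quotient.mk (Ideal.span {y}) (v i)) =
      ∑ i, g i (Ideal.Quotient.mk (Ideal.span {y}) (v i)) := by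
    simp [G, LinearMap.lsum_apply]
  rw [map_sum, h3]
  refine Finset.sum_congr rfl fun i _ => ?_
  rw [map_smul]
  rfl

theorem exists_pres (M : Type*) [AddCommGroup M] [Module R M] [Module.Finite R M] :
    ∃ p : Σ n : ℕ, Submodule R (Fin n → R), Nonempty (M ≃ₗ[R] (Fin p.1 → R) ⧸ p.2) := by
  obtain ⟨n, f, hf⟩ := Module.Finite.exists_fin' R M
  exact ⟨⟨n, LinearMap.ker f⟩, ⟨(f.quotKerEquivOfSurjective hf).symm⟩⟩

end

end Pool.Agent.TH282.RG
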