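import Mathlib

/-!
# Rigid stable subspaces: the linear algebra

`k` is a field, `B` a space of matrices over `k` commuting with the matrices in `ρ`.  Over a Noetherian
`k`-algebra `C` a stable direct summand (the image of an idempotent `P` with `(1 - P) ρ P = 0`) whose
specialisation at a point is rigid is, near this point, the image of the constant one under an element of
`B ⊗ C`.
-/

set_option autoImplicit false
set_option linter.unusedSectionVars false

namespace Pool.Agent.TH282.RG

open Matrix

section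

variable {k : Type*} [Field k] {n : Type*} [Fintype n] [DecidableEq n]

/-- the constant matrix over `C` -/
abbrev hat (C : Type*) [CommRing C] [Algebra k C] (M : Matrix n n k) : Matrix n n C :=
  M.map (algebraMap k C)

variable {C : Type*} [CommRing C] [Algebra k C]

theorem hat_mul (M N : Matrix n n k) : hat C (M * N) = hat C M * hat C N := by
  simp [hat, Matrix.map_mul]

theorem hat_one : hat C (1 : Matrix n n k) = 1 := by
  simp [hat]

theorem hat_sub (M N : Matrix n n k) : hat C (M - N) = hat C M - hat C N := by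
  ext i j
  simp [hat]

/-- the `C`-span of the constant matrices in `B` -/
def BC (C : Type*) [CommRing C] [Algebra k C] (B : Submodule k (Matrix n n k)) :
    Submodule C (Matrix n n C) :=
  Submodule.span C (hat C '' (B : Set (Matrix n n k)))

theorem hat_mem {B : Submodule k (Matrix n n k)} {b : Matrix n n k} (hb : b ∈ B) :
    hat C b ∈ BC C B := Submodule.subset_span ⟨b, hb, rfl⟩

theorem BC_comm {B : Submodule k (Matrix n n k)} {r : Matrix n n k} (h : ∀ b ∈ B, b * r = r * b)
    {G : Matrix n n C} (hG : G ∈ BC C B) : G * hat C r = hat C r * G := by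
  induction hG using Submodule.span_induction with
  | mem x hx =>
    obtain ⟨b, hb, rfl⟩ := hx
    rw [← hat_mul, ← hat_mul, h b hb]
  | zero => simp
  | add x y _ _ hx hy => rw [add_mul, mul_add, hx, hy]
  | smul a x _ hx => rw [smul_mul_assoc, mul_smul_comm, hx]

theorem BC_eval {B : Submodule k (Matrix n n k)} (φ : C →ₐ[k] k) {G : Matrix n n C}
    (hG : G ∈ BC C B) : G.map φ ∈ B := by
  induction hG using Submodule.span_induction with
  | mem x hx =>
    obtain ⟨b, hb, rfl⟩ := hx
    have : (hat C b).map φ = b := by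
      ext i j
      simp [hat]
    rw [this]
    exact hb
  | zero => simp
  | add x y _ _ hx hy =>
    rw [Matrix.map_add φ (map_add φ)]
    exact B.add_mem hx hy
  | smul a x _ hx =>
    have : (a • x).map φ = φ a • x.map φ := by
      ext i j
      simp
    rw [this]
    exact B.smul_mem _ hx

/-- extension of coefficients: a vector with entries in `W` all of whose specialisations by linear
functionals lie in `U` is a combination of elements of `U` with coefficients in `W` -/
theorem coeff {ι : Type*} [Fintype ι] {W : Type*} [AddCommGroup W] [Module k W]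
    (U : Submodule k (ι → k)) (E : ι → W) (h : ∀ l : W →ₗ[k] k, (fun i => l (E i)) ∈ U) :
    ∃ (T : Finset (Module.Basis.ofVectorSpaceIndex k W)) (u : Module.Basis.ofVectorSpaceIndex k W → ι → k)
      (w : Module.Basis.ofVectorSpaceIndex k W → W), (∀ s, u s ∈ U) ∧ ∀ i, E i = ∑ s ∈ T, u s i • w s := by
  classical
  let b := Module.Basis.ofVectorSpace k W
  refine ⟨Finset.univ.biUnion fun i => (b.repr (E i)).support, fun s i => b.repr (E i) s,
    fun s => b s, fun s => h (b.coord s), fun i => ?_⟩
  conv_lhs => rw [← b.linearCombination_repr (E i)]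
  rw [Finsupp.linearCombination_apply, Finsupp.sum]
  apply Finset.sum_subset
  · exact Finset.subset_biUnion_of_mem (fun i => (b.repr (E i)).support) (Finset.mem_univ i)
  · intro x _ hx
    rw [Finsupp.notMem_support_iff.mp hx, zero_smul]


theorem ent_mul {I J : Ideal C} {A M : Matrix n n C} (hA : ∀ i j, A i j ∈ I) (hM : ∀ i j, M i j ∈ J)
    (i j : n) : (A * M) i j ∈ I * J := by
  rw [Matrix.mul_apply]
  exact Ideal.sum_mem _ fun s _ => Ideal.mul_mem_mul (hA i s) (hM s j)

theorem ent_mul_left {I : Ideal C} (A : Matrix n n C) {M : Matrix n n C} (hM : ∀ i j, M i j ∈ I)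
    (i j : n) : (A * M) i j ∈ I := by
  rw [Matrix.mul_apply]
  exact Ideal.sum_mem _ fun s _ => Ideal.mul_mem_left _ _ (hM s j)

theorem ent_mul_right {I : Ideal C} {A : Matrix n n C} (M : Matrix n n C) (hA : ∀ i j, A i j ∈ I)
    (i j : n) : (A * M) i j ∈ I := by
  rw [Matrix.mul_apply]
  exact Ideal.sum_mem _ fun s _ => Ideal.mul_mem_right _ _ (hA i s)

theorem map_hat_mul (l : C →ₗ[k] k) (A : Matrix n n k) (M : Matrix n n C) :
    (hat C A * M).map l = A * M.map l := by
  ext i j
  simp only [Matrix.map_apply, Matrix.mul_apply, map_sum, hat]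
  refine Finset.sum_congr rfl fun s _ => ?_
  rw [← Algebra.smul_def, map_smul, smul_eq_mul]

theorem map_mul_hat (l : C →ₗ[k] k) (A : Matrix n n k) (M : Matrix n n C) :
    (M * hat C A).map l = M.map l * A := by
  ext i j
  simp only [Matrix.map_apply, Matrix.mul_apply, map_sum, hat]
  refine Finset.sum_congr rfl fun s _ => ?_
  rw [mul_comm, ← Algebra.smul_def, map_smul, smul_eq_mul, mul_comm]

theorem map_eq_of_sub {l : C →ₗ[k] k} {I : Ideal C} (hl : ∀ c ∈ I, l c = 0) {M N : Matrix n n C}
    (h : ∀ i j, (M - N) i j ∈ I) : M.map l = N.map l := by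
  ext i j
  have := hl _ (h i j)
  rw [Matrix.sub_apply, map_sub, sub_eq_zero] at this
  simpa using this

/-- rigidity of the idempotent `a` with respect to `ρ` and `B` -/
def Rig (ρ : Set (Matrix n n k)) (B : Submodule k (Matrix n n k)) (a : Matrix n n k) : Prop :=
  ∀ η : Matrix n n k, (1 - a) * η = η → η * a = η → (∀ r ∈ ρ, (1 - a) * r * η = η * r * a) →
    ∃ b ∈ B, (1 - a) * b * a = η

variable {ρ : Set (Matrix n n k)} {B : Submodule k (Matrix n n k)} (φ : C →ₐ[k] k)
  {P : Matrix n n C}

theorem sub_mem_ker (i j : n) : (P - hat C (P.map φ)) i j ∈ RingHom.ker φ := by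
  rw [RingHom.mem_ker]
  simp [hat]

theorem map_idem (hP : P * P = P) : P.map φ * P.map φ = P.map φ := by
  have : (P * P).map φ = P.map φ * P.map φ := by
    ext i j
    simp [Matrix.mul_apply]
  rw [← this, hP]

theorem map_stab (hρ : ∀ r ∈ ρ, (1 - P) * hat C r * P = 0) {r : Matrix n n k} (hr : r ∈ ρ) :
    (1 - P.map φ) * r * P.map φ = 0 := by
  have h := congrArg (fun M : Matrix n n C => M.map φ) (hρ r hr)
  have e : ((1 - P) * hat C r * P).map φ = (1 - P.map φ) * r * P.map φ := by
    ext i j
    simp [Matrix.mul_apply, hat, Matrix.one_apply, apply_ite φ]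
  change ((1 - P) * hat C r * P).map φ = (0 : Matrix n n C).map φ at h
  rw [e] at h
  rw [h]
  ext i j
  simp

/-- the correction step -/
theorem step (hP : P * P = P) (hρ : ∀ r ∈ ρ, (1 - P) * hat C r * P = 0)
    (hB : ∀ b ∈ B, ∀ r ∈ ρ, b * r = r * b) (hR : Rig ρ B (P.map φ)) (m : ℕ) {G : Matrix n n C}
    (hG : G ∈ BC C B)
    (hE : ∀ i j, ((1 - P) * G * hat C (P.map φ)) i j ∈ (RingHom.ker φ) ^ m) :
    ∃ H ∈ ((RingHom.ker φ) ^ m • BC C B : Submodule C (Matrix n n C)),
      ∀ i j, ((1 - P) * G * hat C (P.map φ) + (1 - P) * H * hat C (P.map φ)) i j ∈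
        (RingHom.ker φ) ^ (m + 1) := by
  classical
  set N : Ideal C := RingHom.ker φ with hN
  set a := P.map φ with ha
  set E := (1 - P) * G * hat C a with hEdef
  have haa : a * a = a := map_idem φ hP
  have e1 : E * hat C a = E := by
    rw [hEdef, mul_assoc ((1 - P) * G), ← hat_mul, haa]
  have hPP : (1 - P) * (1 - P) = 1 - P := by
    rw [mul_sub, sub_mul, sub_mul, hP]
    simp
  have e2 : (1 - P) * E = E := by
    rw [hEdef, mul_assoc, ← mul_assoc (1 - P) (1 - P), hPP, ← mul_assoc]
  have e3 : ∀ r ∈ ρ, (1 - P) * hat C r * E = E * hat C r * hat C a := by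
    intro r hr
    have h1 : (1 - P) * hat C r * (1 - P) = (1 - P) * hat C r := by
      rw [mul_sub, hρ r hr, mul_one, sub_zero]
    have h2 : hat C r * hat C a = hat C a * hat C r * hat C a := by
      have := map_stab φ hρ hr
      rw [← ha, sub_mul, sub_mul, one_mul, sub_eq_zero] at this
      rw [← hat_mul, this, hat_mul, hat_mul]
    calc (1 - P) * hat C r * E = ((1 - P) * hat C r * (1 - P)) * G * hat C a := by
          rw [hEdef]; simp only [mul_assoc]
      _ = (1 - P) * (hat C r * G) * hat C a := by rw [h1]; simp only [mul_assoc]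
      _ = (1 - P) * (G * hat C r) * hat C a := by
          rw [BC_comm (fun b hb => hB b hb r hr) hG]
      _ = (1 - P) * G * (hat C r * hat C a) := by simp only [mul_assoc]
      _ = E * hat C r * hat C a := by rw [h2, hEdef]; simp only [mul_assoc]
  have hPa : ∀ i j, (P - hat C a) i j ∈ N := fun i j => sub_mem_ker φ i j
  have hpow : N * N ^ m = N ^ (m + 1) := by rw [pow_succ']
  -- functionals killing `N ^ (m + 1)`
  have key : ∀ l : C →ₗ[k] k, (∀ c ∈ N ^ (m + 1), l c = 0) → ∃ b ∈ B, (1 - a) * b * a = E.map l := by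
    intro l hl
    apply hR
    · rw [← map_hat_mul]
      apply map_eq_of_sub hl
      intro i j
      have : hat C (1 - a) * E - E = (P - hat C a) * E := by
        conv_lhs => rw [← e2]
        rw [hat_sub, hat_one, e2]
        nth_rewrite 2 [← e2]
        rw [sub_mul, sub_mul, sub_mul]
        abel
      rw [this, ← hpow]
      exact ent_mul hPa hE i j
    · rw [← map_mul_hat, e1]
    · intro r hr
      rw [mul_assoc, ← map_hat_mul, ← map_hat_mul, ← map_mul_hat, ← map_mul_hat, ← e3 r hr]
      apply map_eq_of_sub hl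
      intro i j
      have : hat C (1 - a) * (hat C r * E) - (1 - P) * hat C r * E = (P - hat C a) * (hat C r * E) := by
        rw [hat_sub, hat_one, mul_assoc, sub_mul, sub_mul, sub_mul]
        abel
      rw [this, ← hpow]
      exact ent_mul hPa (ent_mul_left _ hE) i j
  -- coefficients
  let q : C →ₗ[k] C ⧸ (N ^ (m + 1)) := (Ideal.Quotient.mkₐ k (N ^ (m + 1))).toLinearMap
  have hq0 : ∀ c, q c = 0 ↔ c ∈ N ^ (m + 1) := fun c => Ideal.Quotient.eq_zero_iff_mem
  let W : Submodule k (C ⧸ (N ^ (m + 1))) := Submodule.map q ((N ^ m).restrictScalars k)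
  let E' : n × n → W := fun x => ⟨q (E x.1 x.2), Submodule.mem_map_of_mem (hE x.1 x.2)⟩
  let Φ : Matrix n n k →ₗ[k] (n × n → k) :=
    { toFun := fun b x => ((1 - a) * b * a) x.1 x.2
      map_add' := fun b c => by ext x; simp [mul_add, add_mul]
      map_smul' := fun t b => by ext x; simp }
  obtain ⟨T, u, w, hu, hE'⟩ := coeff (B.map Φ) E' (by
    intro l
    obtain ⟨l', hl'⟩ := LinearMap.exists_extend l
    obtain ⟨b, hb, hb'⟩ := key (l' ∘ₗ q) (fun c hc => by
      rw [LinearMap.comp_apply, (hq0 c).mpr hc, map_zero])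
    refine ⟨b, hb, ?_⟩
    ext x
    change ((1 - a) * b * a) x.1 x.2 = _
    rw [hb', Matrix.map_apply, LinearMap.comp_apply, ← hl']
    rfl)
  choose b hb hbu using hu
  have hw : ∀ s, ∃ c ∈ N ^ m, q c = w s := fun s => by
    obtain ⟨c, hc, hc'⟩ := (w s).2
    exact ⟨c, hc, hc'⟩
  choose c hc hcw using hw
  refine ⟨-∑ s ∈ T, c s • hat C (b s), ?_, ?_⟩
  · refine Submodule.neg_mem _ (Submodule.sum_mem _ fun s _ => ?_)
    exact Submodule.smul_mem_smul (hc s) (hat_mem (hb s))
  · intro i j
    set H := ∑ s ∈ T, c s • hat C (b s) with hH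
    have hHm : ∀ i j, H i j ∈ N ^ m := by
      intro i j
      rw [hH, Matrix.sum_apply]
      exact Ideal.sum_mem _ fun s _ => by
        rw [Matrix.smul_apply, smul_eq_mul]
        exact Ideal.mul_mem_right _ _ (hc s)
    have d1 : E + (1 - P) * (-H) * hat C a =
        (E - hat C (1 - a) * H * hat C a) + (P - hat C a) * (H * hat C a) := by
      rw [hat_sub, hat_one]
      simp only [mul_neg, neg_mul, sub_mul, one_mul, mul_assoc]
      abel
    rw [d1, Matrix.add_apply]
    refine Ideal.add_mem _ ?_ ?_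
    · rw [← hq0, Matrix.sub_apply, map_sub, sub_eq_zero]
      have h1 : q (E i j) = ((E' (i, j) : W) : C ⧸ (N ^ (m + 1))) := rfl
      rw [h1, hE' (i, j)]
      have h2 : (hat C (1 - a) * H * hat C a : Matrix n n C) i j = ∑ s ∈ T, c s * algebraMap k C (u s (i, j)) := by
        rw [hH, Finset.mul_sum, Finset.sum_mul, Matrix.sum_apply]
        refine Finset.sum_congr rfl fun s _ => ?_
        rw [mul_smul_comm, smul_mul_assoc, Matrix.smul_apply, smul_eq_mul, ← hat_mul, ← hat_mul,
          ← hbu s]
        rfl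
      rw [h2, map_sum, Submodule.coe_sum]
      refine Finset.sum_congr rfl fun s _ => ?_
      rw [Submodule.coe_smul, ← hcw s, mul_comm, ← Algebra.smul_def, map_smul]
    · rw [← hpow]
      exact ent_mul hPa (ent_mul_right _ hHm) i j


theorem ent_mem_smul {I : Ideal C} {M : Matrix n n C} (h : ∀ i j, M i j ∈ I) :
    M ∈ (I • ⊤ : Submodule C (Matrix n n C)) := by
  classical
  rw [Matrix.matrix_eq_sum_single M]
  refine Submodule.sum_mem _ fun i _ => Submodule.sum_mem _ fun j _ => ?_
  have : Matrix.single i j (M i j) = M i j • Matrix.single i j (1 : C) := by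
    rw [Matrix.smul_single, smul_eq_mul, mul_one]
  rw [this]
  exact Submodule.smul_mem_smul (h i j) trivial

theorem approx (h1 : (1 : Matrix n n k) ∈ B) (hP : P * P = P)
    (hρ : ∀ r ∈ ρ, (1 - P) * hat C r * P = 0) (hB : ∀ b ∈ B, ∀ r ∈ ρ, b * r = r * b)
    (hR : Rig ρ B (P.map φ)) (m : ℕ) :
    ∃ H ∈ (RingHom.ker φ • BC C B : Submodule C (Matrix n n C)),
      ∀ i j, ((1 - P) * (1 + H) * hat C (P.map φ)) i j ∈ (RingHom.ker φ) ^ (m + 1) := by
  have hone : (1 : Matrix n n C) ∈ BC C B := by
    have := hat_mem (C := C) h1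
    rwa [hat_one] at this
  induction m with
  | zero =>
    refine ⟨0, Submodule.zero_mem _, fun i j => ?_⟩
    rw [add_zero, mul_one, zero_add, pow_one]
    have : (1 - P) * hat C (P.map φ) = (hat C (P.map φ) - P) * hat C (P.map φ) := by
      rw [sub_mul, sub_mul, ← hat_mul, map_idem φ hP, one_mul]
    rw [this]
    apply ent_mul_right
    intro i j
    have := sub_mem_ker φ (P := P) i j
    rw [← neg_mem_iff] at this
    rwa [← Matrix.neg_apply, neg_sub] at this
  | succ m ih =>
    obtain ⟨H, hH, hE⟩ := ih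
    have hG : 1 + H ∈ BC C B := add_mem hone (Submodule.smul_le_right hH)
    obtain ⟨H', hH', hE'⟩ := step φ hP hρ hB hR (m + 1) hG hE
    refine ⟨H + H', add_mem hH (Submodule.smul_mono_left (Ideal.pow_le_self (by omega)) hH'), ?_⟩
    intro i j
    have : (1 - P) * (1 + (H + H')) * hat C (P.map φ) =
        (1 - P) * (1 + H) * hat C (P.map φ) + (1 - P) * H' * hat C (P.map φ) := by
      rw [← add_mul, ← mul_add, add_assoc]
    rw [this]
    exact hE' i j

/-- **Triviality near a rigid point.** -/
theorem exists_G [IsNoetherianRing C] (h1 : (1 : Matrix n n k) ∈ B) (hP : P * P = P)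
    (hρ : ∀ r ∈ ρ, (1 - P) * hat C r * P = 0) (hB : ∀ b ∈ B, ∀ r ∈ ρ, b * r = r * b)
    (hR : Rig ρ B (P.map φ)) :
    ∃ G ∈ BC C B, (1 - P) * G * hat C (P.map φ) = 0 ∧ G.map φ = 1 := by
  set N : Ideal C := RingHom.ker φ with hN
  set a := P.map φ with ha
  have hone : (1 : Matrix n n C) ∈ BC C B := by
    have := hat_mem (C := C) h1
    rwa [hat_one] at this
  let T : Matrix n n C →ₗ[C] Matrix n n C :=
    { toFun := fun H => (1 - P) * H * hat C a
      map_add' := fun H K => by rw [mul_add, add_mul]
      map_smul' := fun c H => by simp }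
  let U : Submodule C (Matrix n n C) := (N • BC C B).map T
  have hx : U.mkQ ((1 - P) * hat C a) ∈ (⨅ i : ℕ, N ^ i • ⊤ : Submodule C (Matrix n n C ⧸ U)) := by
    rw [Submodule.mem_iInf]
    intro i
    obtain ⟨H, hH, hE⟩ := approx φ h1 hP hρ hB hR i
    have e : U.mkQ ((1 - P) * hat C a) = U.mkQ ((1 - P) * (1 + H) * hat C a) := by
      rw [← sub_eq_zero, ← map_sub, Submodule.mkQ_apply, Submodule.Quotient.mk_eq_zero]
      have : (1 - P) * hat C a - (1 - P) * (1 + H) * hat C a = T (-H) := by
        change _ = (1 - P) * (-H) * hat C a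
        rw [mul_add, add_mul, mul_one, mul_neg, neg_mul]
        abel
      rw [this]
      exact Submodule.mem_map_of_mem (neg_mem hH)
    rw [e]
    have h2 : (1 - P) * (1 + H) * hat C a ∈ (N ^ i • ⊤ : Submodule C (Matrix n n C)) :=
      ent_mem_smul fun r s => Ideal.pow_le_pow_right (Nat.le_succ i) (hE r s)
    have h3 := Submodule.mem_map_of_mem (f := U.mkQ) h2
    rw [Submodule.map_smul''] at h3
    have h4 : N ^ i • Submodule.map U.mkQ (⊤ : Submodule C (Matrix n n C)) ≤ N ^ i • ⊤ :=
      Submodule.smul_mono le_rfl le_top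
    exact h4 h3
  rw [Ideal.mem_iInf_smul_pow_eq_bot_iff] at hx
  obtain ⟨r, hr⟩ := hx
  rw [← map_smul, ← sub_eq_zero, ← map_sub, Submodule.mkQ_apply, Submodule.Quotient.mk_eq_zero] at hr
  obtain ⟨H, hH, hH'⟩ := hr
  change (1 - P) * H * hat C a = _ at hH'
  refine ⟨(1 - (r : C)) • (1 : Matrix n n C) + H, ?_, ?_, ?_⟩
  · exact add_mem (Submodule.smul_mem _ _ hone) (Submodule.smul_le_right hH)
  · rw [mul_add, add_mul, hH', mul_smul_comm, smul_mul_assoc, mul_one, sub_smul, one_smul]
    abel
  · have h4 : H.map φ = 0 := by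
      have h5 : ∀ i j, H i j ∈ N := by
        have h6 : (N • BC C B : Submodule C (Matrix n n C)) ≤ N • ⊤ :=
          Submodule.smul_mono le_rfl le_top
        have h7 := h6 hH
        clear hH' hH
        induction h7 using Submodule.smul_induction_on' with
        | smul c hc M _ =>
          intro i j
          rw [Matrix.smul_apply, smul_eq_mul]
          exact Ideal.mul_mem_right _ _ hc
        | add M _ K _ hM hK =>
          intro i j
          exact add_mem (hM i j) (hK i j)
      ext i j
      exact h5 i j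
    have h8 : φ (r : C) = 0 := r.2
    ext i j
    have h9 : φ (H i j) = 0 := congrFun (congrFun h4 i) j
    simp [Matrix.one_apply, h8, h9, apply_ite φ]

end

end Pool.Agent.TH282.RG
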