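import Mathlib

/-!
# Finiteness of birational integral extensions of complete one-dimensional domains
-/

set_option autoImplicit false
set_option linter.unusedSectionVars false

namespace Pool.Agent.TH282.RG

universe u

open IsLocalRing

section Length

variable {R M : Type*} [CommRing R] [AddCommGroup M] [Module R M]

/-- `N / xN` and `M / xM` have the same length when `M / N` has finite length. -/
theorem length_quot (N : Submodule R M) (x : R) (hx : ∀ m : M, x • m = 0 → m = 0)
    (hfin : Module.length R (M ⧸ N) ≠ ⊤) :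
    Module.length R (N ⧸ (LinearMap.range (LinearMap.lsmul R N x))) =
      Module.length R (M ⧸ (LinearMap.range (LinearMap.lsmul R M x))) := by
  let P : Submodule R M := N.map (LinearMap.lsmul R M x)
  have hPN : P ≤ N := by
    rintro _ ⟨n, hn, rfl⟩
    exact N.smul_mem x hn
  have hPM : P ≤ LinearMap.range (LinearMap.lsmul R M x) := by
    rintro _ ⟨n, hn, rfl⟩
    exact ⟨n, rfl⟩
  have s1 : Module.length R (M ⧸ P) =
      Module.length R (N ⧸ (LinearMap.range (LinearMap.lsmul R N x))) + Module.length R (M ⧸ N) := by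
    have hle : LinearMap.range (LinearMap.lsmul R N x) ≤ P.comap N.subtype := by
      rintro _ ⟨n, rfl⟩
      exact ⟨n, n.2, rfl⟩
    apply Module.length_eq_add_of_exact (Submodule.mapQ _ P N.subtype hle)
      (Submodule.factor hPN)
    · rw [injective_iff_map_eq_zero]
      intro z hz
      obtain ⟨n, rfl⟩ := Submodule.mkQ_surjective _ z
      change P.mkQ (n : M) = 0 at hz
      rw [Submodule.mkQ_apply, Submodule.Quotient.mk_eq_zero] at hz ⊢
      obtain ⟨n', hn', h⟩ := hz
      exact ⟨⟨n', hn'⟩, Subtype.ext h⟩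
    · exact Submodule.factor_surjective hPN
    · intro z
      obtain ⟨m, rfl⟩ := P.mkQ_surjective z
      constructor
      · intro h
        have h1 : N.mkQ m = 0 := h
        rw [Submodule.mkQ_apply, Submodule.Quotient.mk_eq_zero] at h1
        exact ⟨Submodule.Quotient.mk ⟨m, h1⟩, rfl⟩
      · rintro ⟨n, hn⟩
        obtain ⟨n, rfl⟩ := Submodule.mkQ_surjective _ n
        rw [← hn]
        change N.mkQ n = 0
        rw [Submodule.mkQ_apply, Submodule.Quotient.mk_eq_zero]
        exact n.2
  have s2 : Module.length R (M ⧸ P) = Module.length R (M ⧸ N) +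
      Module.length R (M ⧸ (LinearMap.range (LinearMap.lsmul R M x))) := by
    have hle : N ≤ P.comap (LinearMap.lsmul R M x) := fun n hn => ⟨n, hn, rfl⟩
    apply Module.length_eq_add_of_exact (Submodule.mapQ N P (LinearMap.lsmul R M x) hle)
      (Submodule.factor hPM)
    · rw [injective_iff_map_eq_zero]
      intro z hz
      obtain ⟨n, rfl⟩ := Submodule.mkQ_surjective _ z
      change P.mkQ (x • n) = 0 at hz
      rw [Submodule.mkQ_apply, Submodule.Quotient.mk_eq_zero] at hz ⊢
      obtain ⟨n', hn', h⟩ := hz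
      have : n = n' := by
        rw [← sub_eq_zero]
        apply hx
        rw [smul_sub, sub_eq_zero]
        exact h.symm
      rw [this]
      exact hn'
    · exact Submodule.factor_surjective hPM
    · intro z
      obtain ⟨m, rfl⟩ := P.mkQ_surjective z
      constructor
      · intro h
        have h1 : (LinearMap.range (LinearMap.lsmul R M x)).mkQ m = 0 := h
        rw [Submodule.mkQ_apply, Submodule.Quotient.mk_eq_zero] at h1
        obtain ⟨m', rfl⟩ := h1
        exact ⟨N.mkQ m', rfl⟩
      · rintro ⟨n, hn⟩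
        obtain ⟨n, rfl⟩ := Submodule.mkQ_surjective _ n
        rw [← hn]
        change (LinearMap.range (LinearMap.lsmul R M x)).mkQ (x • n) = 0
        rw [Submodule.mkQ_apply, Submodule.Quotient.mk_eq_zero]
        exact ⟨n, rfl⟩
  rw [s1, add_comm] at s2
  exact (WithTop.add_left_inj hfin).mp s2

end Length

section Dim

variable {R : Type*} [CommRing R] [IsDomain R] [IsNoetherianRing R] [Ring.KrullDimLE 1 R]

theorem finiteLength_quot {J : Ideal R} (hJ : J ≠ ⊥) : IsFiniteLength R (R ⧸ J) := by
  obtain ⟨x, hx, hx0⟩ := Submodule.exists_mem_ne_zero_of_ne_bot hJ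
  have h := isFiniteLength_quotient_span_singleton R (mem_nonZeroDivisors_of_ne_zero hx0)
  exact h.of_surjective (f := Submodule.factor ((Ideal.span_singleton_le_iff_mem J).mpr hx))
    (Submodule.factor_surjective _)

theorem range_lsmul_self (x : R) : LinearMap.range (LinearMap.lsmul R R x) = Ideal.span {x} := by
  ext y
  rw [Ideal.mem_span_singleton']
  constructor
  · rintro ⟨a, rfl⟩
    exact ⟨a, mul_comm a x⟩
  · rintro ⟨a, rfl⟩
    exact ⟨a, mul_comm x a⟩

theorem length_rank_one {N : Type*} [AddCommGroup N] [Module R N] (φ : N →ₗ[R] R)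
    (hφ : Function.Injective φ) {x : R} (hx : x ≠ 0) :
    Module.length R (N ⧸ (LinearMap.range (LinearMap.lsmul R N x))) ≤
      Module.length R (R ⧸ Ideal.span {x}) := by
  by_cases hN : LinearMap.range φ = ⊥
  · have h0 : ∀ n : N, n = 0 := fun n => by
      apply hφ
      rw [map_zero]
      have : φ n ∈ LinearMap.range φ := ⟨n, rfl⟩
      rw [hN] at this
      exact this
    have : Subsingleton (N ⧸ (LinearMap.range (LinearMap.lsmul R N x))) := by
      constructor
      intro a b
      obtain ⟨a, rfl⟩ := Submodule.mkQ_surjective _ a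
      obtain ⟨b, rfl⟩ := Submodule.mkQ_surjective _ b
      rw [h0 a, h0 b]
    rw [Module.length_eq_zero]
    exact zero_le
  · have h1 := length_quot (LinearMap.range φ) x (fun m hm => by
      rcases mul_eq_zero.mp hm with h | h
      · exact absurd h hx
      · exact h) (Module.length_ne_top_iff.mpr (finiteLength_quot hN))
    rw [range_lsmul_self] at h1
    rw [← h1]
    let e : N ≃ₗ[R] LinearMap.range φ := LinearEquiv.ofInjective φ hφ
    apply le_of_eq
    refine (Submodule.Quotient.equiv _ _ e ?_).length_eq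
    ext z
    constructor
    · rintro ⟨_, ⟨n, rfl⟩, rfl⟩
      exact ⟨e n, (map_smul e x n).symm⟩
    · rintro ⟨n, rfl⟩
      obtain ⟨n, rfl⟩ := e.surjective n
      exact ⟨x • n, ⟨n, rfl⟩, map_smul e x n⟩

/-- a module all of whose finitely generated submodules have bounded length is finitely generated -/
theorem finite_of_bounded {R Q : Type*} [CommRing R] [AddCommGroup Q] [Module R Q] (e : ℕ)
    (h : ∀ P : Submodule R Q, P.FG → Module.length R P ≤ e) : Module.Finite R Q := by
  classical
  let p : ℕ → Prop := fun n => ∃ P : Submodule R Q, P.FG ∧ (n : ℕ∞) ≤ Module.length R P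
  have hp0 : p 0 := ⟨⊥, Submodule.fg_bot, by simp⟩
  obtain ⟨P, hP, hPn⟩ := Nat.findGreatest_spec (P := p) (Nat.zero_le e) hp0
  have hmax : ∀ P' : Submodule R Q, P'.FG → Module.length R P' ≤ Module.length R P := by
    intro P' hP'
    obtain ⟨m, hm⟩ := ENat.ne_top_iff_exists.mp (ne_top_of_le_ne_top (ENat.natCast_ne_top e) (h P' hP'))
    refine le_trans ?_ hPn
    rw [← hm, Nat.cast_le]
    apply Nat.le_findGreatest
    · have := h P' hP'
      rw [← hm, Nat.cast_le] at this
      exact this
    · exact ⟨P', hP', hm.le⟩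
  refine ⟨?_⟩
  have : P = ⊤ := by
    rw [eq_top_iff]
    intro v _
    by_contra hv
    let P' := P ⊔ Submodule.span R {v}
    have hP' : P'.FG := hP.sup (Submodule.fg_span_singleton v)
    have hlt : P < P' := by
      refine lt_of_le_of_ne le_sup_left ?_
      intro heq
      apply hv
      rw [heq]
      exact Submodule.mem_sup_right (Submodule.mem_span_singleton_self v)
    have hfl := (Module.length_ne_top_iff (R := R) (M := P')).mp
      (ne_top_of_le_ne_top (ENat.natCast_ne_top e) (h P' hP'))
    rw [isFiniteLength_iff_isNoetherian_isArtinian] at hfl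
    obtain ⟨h1, h2⟩ := hfl
    have h3 : P.comap P'.subtype ≠ ⊤ := by
      intro h4
      apply hlt.not_ge
      rwa [Submodule.comap_subtype_eq_top] at h4
    have h5 := Submodule.length_lt h3
    rw [(Submodule.comapSubtypeEquivOfLe hlt.le).length_eq] at h5
    exact absurd (hmax P' hP') (not_le.mpr h5)
  rw [← this]
  exact hP

end Dim

section Complete

theorem sum_of_mem {R M : Type*} [CommRing R] [AddCommGroup M] [Module R M] (J : Ideal R)
    (s : Finset M) {u : M} (hu : u ∈ J • Submodule.span R (s : Set M)) :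
    ∃ a : s → R, (∀ j, a j ∈ J) ∧ u = ∑ j, a j • (j : M) := by
  have h1 : (s : Set M) = Set.range (fun j : s => (j : M)) := by
    ext x
    simp
  rw [h1] at hu
  rw [Submodule.mem_ideal_smul_span_iff_exists_sum] at hu
  obtain ⟨a, ha, rfl⟩ := hu
  refine ⟨a, ha, ?_⟩
  rw [Finsupp.sum_fintype]
  intro i
  rw [zero_smul]

/-- over a complete ring, a separated module which is finitely generated modulo the ideal is
finitely generated -/
theorem fg_of_complete {R M : Type*} [CommRing R] [AddCommGroup M] [Module R M] (I : Ideal R)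
    [IsPrecomplete I R] (hM : ∀ m : M, (∀ n : ℕ, m ∈ (I ^ n • ⊤ : Submodule R M)) → m = 0)
    (N : Submodule R M) (hN : N.FG) (h : (⊤ : Submodule R M) ≤ N ⊔ I • ⊤) : N = ⊤ := by
  obtain ⟨s, hs⟩ := hN
  rw [eq_top_iff]
  intro m _
  -- one step
  have step : ∀ (n : ℕ) (z : (I ^ n • ⊤ : Submodule R M)), ∃ a : s → R, (∀ j, a j ∈ I ^ n) ∧
      (z : M) - ∑ j, a j • (j : M) ∈ (I ^ (n + 1) • ⊤ : Submodule R M) := by
    intro n z
    have h1 : (I ^ n • ⊤ : Submodule R M) ≤ I ^ n • Submodule.span R (s : Set M) ⊔ I ^ (n + 1) • ⊤ := by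
      have h3 : (I ^ (n + 1) • ⊤ : Submodule R M) = I ^ n • (I • ⊤ : Submodule R M) := by
        rw [pow_succ, Submodule.mul_smul]
      rw [h3, ← Submodule.smul_sup, hs]
      exact Submodule.smul_mono le_rfl h
    obtain ⟨u, hu, w, hw, huw⟩ := Submodule.mem_sup.mp (h1 z.2)
    obtain ⟨a, ha, rfl⟩ := sum_of_mem _ s hu
    refine ⟨a, ha, ?_⟩
    rw [← huw, add_sub_cancel_left]
    exact hw
  choose a ha hza using step
  -- the sequence of remainders
  let z : (n : ℕ) → (I ^ n • ⊤ : Submodule R M) := fun n =>
    Nat.rec (motive := fun n => ↥(I ^ n • ⊤ : Submodule R M)) ⟨m, by simp⟩ (fun n zn => ⟨(zn : M) - ∑ j, a n zn j • (j : M), hza n zn⟩) n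
  have hz0 : (z 0).1 = m := rfl
  have hzs : ∀ n, (z (n + 1)).1 = (z n).1 - ∑ j, a n (z n) j • (j : M) := fun n => rfl
  have hL : ∀ j : s, ∃ L : R, ∀ n, (∑ i ∈ Finset.range n, a i (z i) j) - L ∈ I ^ n := by
    intro j
    obtain ⟨L, hL⟩ := IsPrecomplete.prec (I := I) (M := R) inferInstance
      (f := fun n => ∑ i ∈ Finset.range n, a i (z i) j) (by
        intro m n hmn
        rw [SModEq.sub_mem, ← neg_mem_iff, neg_sub, ← Finset.sum_range_add_sum_Ico _ hmn,
          add_sub_cancel_left, smul_eq_mul, Ideal.mul_top]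
        apply Ideal.sum_mem
        intro i hi
        exact Ideal.pow_le_pow_right (Finset.mem_Ico.mp hi).1 (ha i (z i) j))
    refine ⟨L, fun n => ?_⟩
    have := hL n
    rw [SModEq.sub_mem, smul_eq_mul, Ideal.mul_top] at this
    exact this
  choose L hL using hL
  have hpart : ∀ n, (z n).1 = m - ∑ j : s, (∑ i ∈ Finset.range n, a i (z i) j) • (j : M) := by
    intro n
    induction n with
    | zero => simp [hz0]
    | succ n ih =>
      rw [hzs, ih, sub_sub, ← Finset.sum_add_distrib]
      congr 1
      refine Finset.sum_congr rfl fun j _ => ?_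
      rw [Finset.sum_range_succ, add_smul]
  have hfin : m - ∑ j : s, L j • (j : M) = 0 := by
    apply hM
    intro n
    have : m - ∑ j : s, L j • (j : M) = (z n).1 +
        ∑ j : s, ((∑ i ∈ Finset.range n, a i (z i) j) - L j) • (j : M) := by
      rw [hpart]
      simp only [sub_smul, Finset.sum_sub_distrib]
      abel
    rw [this]
    exact Submodule.add_mem _ (z n).2 (Submodule.sum_mem _ fun j _ =>
      Submodule.smul_mem_smul (hL j n) trivial)
  rw [sub_eq_zero] at hfin
  rw [hfin, ← hs]
  exact Submodule.sum_mem _ fun j _ => Submodule.smul_mem _ _ (Submodule.subset_span j.2)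

end Complete

end Pool.Agent.TH282.RG
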