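import Pool.Agent.TH282.RG.Norm

/-!
# Birational integral extensions of complete one-dimensional local domains
-/

set_option autoImplicit false
set_option linter.unusedSectionVars false

namespace Pool.Agent.TH282.RG

universe u

open IsLocalRing

section Bir

variable {R D : Type*} [CommRing R] [IsDomain R] [IsNoetherianRing R] [Ring.KrullDimLE 1 R]
  [CommRing D] [IsDomain D] [Algebra R D]

/-- every element of `D` has a denominator in `R` -/
def Birational (R D : Type*) [CommRing R] [CommRing D] [Algebra R D] : Prop :=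
  ∀ d : D, ∃ c : R, c ≠ 0 ∧ ∃ r : R, algebraMap R D r = algebraMap R D c * d

theorem common_den (hb : Birational R D) (N : Submodule R D) (hN : N.FG) :
    ∃ c : R, c ≠ 0 ∧ ∀ n ∈ N, ∃ r : R, algebraMap R D r = algebraMap R D c * n := by
  classical
  obtain ⟨s, rfl⟩ := hN
  induction s using Finset.induction_on with
  | empty =>
    refine ⟨1, one_ne_zero, fun n hn => ⟨0, ?_⟩⟩
    rw [Finset.coe_empty, Submodule.span_empty, Submodule.mem_bot] at hn
    simp [hn]
  | insert a s _ ih =>
    obtain ⟨c, hc, h⟩ := ih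
    obtain ⟨c', hc', r', hr'⟩ := hb a
    refine ⟨c * c', mul_ne_zero hc hc', fun n hn => ?_⟩
    rw [Finset.coe_insert, Submodule.mem_span_insert] at hn
    obtain ⟨t, z, hz, rfl⟩ := hn
    obtain ⟨r, hr⟩ := h z hz
    refine ⟨t * c * r' + c' * r, ?_⟩
    rw [map_add, map_mul, map_mul, map_mul, map_mul, hr, hr', Algebra.smul_def]
    ring

theorem exists_embed [FaithfulSMul R D] (hb : Birational R D) (N : Submodule R D) (hN : N.FG) :
    ∃ φ : N →ₗ[R] R, Function.Injective φ := by
  obtain ⟨c, hc, h⟩ := common_den hb N hN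
  have hinj : Function.Injective (Algebra.linearMap R D) := FaithfulSMul.algebraMap_injective R D
  let e := LinearEquiv.ofInjective (Algebra.linearMap R D) hinj
  let f : N →ₗ[R] LinearMap.range (Algebra.linearMap R D) :=
    LinearMap.codRestrict _ ((LinearMap.lsmul R D c) ∘ₗ N.subtype) (by
      intro n
      obtain ⟨r, hr⟩ := h n n.2
      refine ⟨r, ?_⟩
      change algebraMap R D r = c • (n : D)
      rw [hr, Algebra.smul_def])
  refine ⟨e.symm.toLinearMap ∘ₗ f, ?_⟩
  apply e.symm.injective.comp
  rw [injective_iff_map_eq_zero]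
  intro n hn
  have h1 : c • (n : D) = 0 := congrArg Subtype.val hn
  rw [Algebra.smul_def, mul_eq_zero] at h1
  rcases h1 with h1 | h1
  · rw [FaithfulSMul.algebraMap_eq_zero_iff] at h1
    exact absurd h1 hc
  · exact Subtype.ext h1

theorem finite_quot [FaithfulSMul R D] (hb : Birational R D) {x : R} (hx : x ≠ 0) :
    Module.Finite R (D ⧸ LinearMap.range (LinearMap.lsmul R D x)) := by
  classical
  have hfl : Module.length R (R ⧸ Ideal.span {x}) ≠ ⊤ := Module.length_ne_top_iff.mpr
    (finiteLength_quot (by rwa [Ne, Ideal.span_singleton_eq_bot]))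
  obtain ⟨e, he⟩ := ENat.ne_top_iff_exists.mp hfl
  apply finite_of_bounded e
  rintro P ⟨t, rfl⟩
  rw [he]
  let g : D ⧸ LinearMap.range (LinearMap.lsmul R D x) → D := Function.surjInv (Submodule.mkQ_surjective _)
  have hg : ∀ q, (LinearMap.range (LinearMap.lsmul R D x)).mkQ (g q) = q :=
    Function.surjInv_eq (Submodule.mkQ_surjective _)
  let N : Submodule R D := Submodule.span R (t.image g : Finset D)
  obtain ⟨φ, hφ⟩ := exists_embed hb N ⟨_, rfl⟩
  refine le_trans ?_ (length_rank_one φ hφ hx)
  let f : (N ⧸ LinearMap.range (LinearMap.lsmul R N x)) →ₗ[R] D ⧸ LinearMap.range (LinearMap.lsmul R D x) :=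
    Submodule.liftQ _ ((LinearMap.range (LinearMap.lsmul R D x)).mkQ ∘ₗ N.subtype) (by
      rintro _ ⟨n, rfl⟩
      rw [LinearMap.mem_ker, LinearMap.comp_apply, Submodule.mkQ_apply, Submodule.Quotient.mk_eq_zero]
      exact ⟨n, rfl⟩)
  have hf : Submodule.span R (t : Set (D ⧸ LinearMap.range (LinearMap.lsmul R D x))) ≤
      LinearMap.range f := by
    rw [Submodule.span_le]
    intro q hq
    refine ⟨Submodule.Quotient.mk ⟨g q, Submodule.subset_span ?_⟩, hg q⟩
    rw [Finset.coe_image]
    exact ⟨q, hq, rfl⟩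
  exact (Module.length_le_of_injective (Submodule.inclusion hf) (Submodule.inclusion_injective hf)).trans
    (Module.length_le_of_surjective f.rangeRestrict f.surjective_rangeRestrict)

theorem separated [IsLocalRing R] [FaithfulSMul R D] [Algebra.IsIntegral R D] (d : D)
    (hd : ∀ n : ℕ, d ∈ (maximalIdeal R ^ n • ⊤ : Submodule R D)) : d = 0 := by
  by_contra hd0
  obtain ⟨z, hz, hdz⟩ := ((Algebra.IsIntegral.isIntegral (R := R) d).isAlgebraic).exists_nonzero_dvd
    (mem_nonZeroDivisors_of_ne_zero hd0)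
  have hfl := finiteLength_quot (R := R) (J := Ideal.span {z}) (by rwa [Ne, Ideal.span_singleton_eq_bot])
  have hart : IsArtinianRing (R ⧸ Ideal.span {z}) := by
    have := (isFiniteLength_iff_isNoetherian_isArtinian.mp hfl).2
    exact isArtinian_of_tower R this
  obtain ⟨n, hn⟩ := exists_maximalIdeal_pow_le_of_isArtinianRing_quotient (Ideal.span {z})
  -- multiplication by `d`
  let f : D →ₗ[R] D := LinearMap.mulLeft R d
  have h1 : (maximalIdeal R ^ n • ⊤ : Submodule R D) ≤ LinearMap.range f := by
    rw [Submodule.smul_le]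
    intro r hr w _
    obtain ⟨s, rfl⟩ := Ideal.mem_span_singleton'.mp (hn hr)
    obtain ⟨d', hd'⟩ := hdz
    refine ⟨algebraMap R D s * d' * w, ?_⟩
    rw [LinearMap.mulLeft_apply, Algebra.smul_def, map_mul, hd']
    ring
  have h2 : (maximalIdeal R ^ (n + 1) • ⊤ : Submodule R D) ≤ (maximalIdeal R • ⊤ : Submodule R D).map f := by
    rw [pow_succ', Submodule.mul_smul, Submodule.map_smul'', Submodule.map_top]
    exact Submodule.smul_mono le_rfl h1
  obtain ⟨e, he, hde⟩ := h2 (hd (n + 1))
  rw [LinearMap.mulLeft_apply] at hde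
  have he1 : e = 1 := mul_left_cancel₀ hd0 (by rw [hde, mul_one])
  subst he1
  obtain ⟨Q, hQ, hQ'⟩ := Ideal.exists_ideal_over_maximal_of_isIntegral (S := D) (maximalIdeal R) (by
    rw [(RingHom.injective_iff_ker_eq_bot _).mp (FaithfulSMul.algebraMap_injective R D)]
    exact bot_le)
  have h3 : (maximalIdeal R • ⊤ : Submodule R D) ≤ Q.restrictScalars R := by
    rw [Submodule.smul_le]
    intro r hr w _
    rw [← hQ', Ideal.mem_comap] at hr
    change r • w ∈ Q
    rw [Algebra.smul_def]
    exact Q.mul_mem_right _ hr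
  exact hQ.ne_top ((Ideal.eq_top_iff_one Q).mpr (h3 he))

/-- **finiteness** -/
theorem finite_bir [IsLocalRing R] [FaithfulSMul R D] [Algebra.IsIntegral R D]
    [IsPrecomplete (maximalIdeal R) R] (hb : Birational R D) {x : R} (hx : x ≠ 0)
    (hxm : x ∈ maximalIdeal R) : Module.Finite R D := by
  classical
  obtain ⟨t, ht⟩ := (finite_quot (D := D) hb hx).fg_top
  let g : D ⧸ LinearMap.range (LinearMap.lsmul R D x) → D := Function.surjInv (Submodule.mkQ_surjective _)
  have hg : ∀ q, (LinearMap.range (LinearMap.lsmul R D x)).mkQ (g q) = q :=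
    Function.surjInv_eq (Submodule.mkQ_surjective _)
  let N : Submodule R D := Submodule.span R (t.image g : Finset D)
  have hNfg : N.FG := ⟨t.image g, rfl⟩
  have hsep : ∀ m : D, (∀ n : ℕ, m ∈ (maximalIdeal R ^ n • ⊤ : Submodule R D)) → m = 0 :=
    fun m hm => separated m hm
  refine ⟨?_⟩
  have : N = ⊤ := by
    refine fg_of_complete (maximalIdeal R) hsep N hNfg ?_
    have h1 : ⊤ ≤ N.map (LinearMap.range (LinearMap.lsmul R D x)).mkQ := by
      rw [← ht, Submodule.span_le]
      intro q hq
      refine ⟨g q, Submodule.subset_span ?_, hg q⟩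
      rw [Finset.coe_image]
      exact ⟨q, hq, rfl⟩
    intro d _
    have h2 : (LinearMap.range (LinearMap.lsmul R D x)).mkQ d ∈
        N.map (LinearMap.range (LinearMap.lsmul R D x)).mkQ := h1 trivial
    obtain ⟨n, hn, hnd⟩ := h2
    rw [← sub_eq_zero, ← map_sub, Submodule.mkQ_apply, Submodule.Quotient.mk_eq_zero] at hnd
    obtain ⟨w, hw⟩ := hnd
    have : d = n + x • (-w) := by
      change x • w = n - d at hw
      rw [smul_neg, hw]
      abel
    rw [this]
    exact Submodule.add_mem_sup hn (Submodule.smul_mem_smul hxm trivial)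
  rw [← this]
  exact hNfg

/-- the maximal ideal of `R` lies in the Jacobson radical of `D` -/
theorem mem_jacobson [IsLocalRing R] [Algebra.IsIntegral R D] {x : R} (hxm : x ∈ maximalIdeal R) :
    algebraMap R D x ∈ (⊥ : Ideal D).jacobson := by
  rw [Ideal.jacobson, Ideal.mem_sInf]
  rintro I ⟨_, hI⟩
  have h1 := Ideal.isMaximal_comap_of_isIntegral_of_isMaximal (R := R) I
  rw [← Ideal.mem_comap, IsLocalRing.eq_maximalIdeal h1]
  exact hxm

end Bir

end Pool.Agent.TH282.RG
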