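import Pool.Agent.TH282.RG.Bir

/-!
# The normalisation of a complete one-dimensional local domain
-/

set_option autoImplicit false
set_option linter.unusedSectionVars false

namespace Pool.Agent.TH282.RG

universe u

open IsLocalRing

theorem exists_norm (R : Type u) [CommRing R] [IsDomain R] [IsNoetherianRing R] [IsLocalRing R]
    [Ring.KrullDimLE 1 R] [IsPrecomplete (maximalIdeal R) R] {x : R} (hx : x ≠ 0)
    (hxm : x ∈ maximalIdeal R) :
    ∃ (D : Type u) (_ : CommRing D) (_ : IsDomain D) (_ : Algebra R D),
      IsPrincipalIdealRing D ∧ Module.Finite R D ∧ Function.Injective (algebraMap R D) ∧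
      (∀ z ∈ maximalIdeal R, algebraMap R D z ∈ (⊥ : Ideal D).jacobson) ∧
      ∃ y : R, y ∈ maximalIdeal R ∧ y ≠ 0 ∧
        ∀ d : D, ∃ r : R, algebraMap R D r = algebraMap R D y * d := by
  let K := FractionRing R
  let D := integralClosure R K
  have hinj : Function.Injective (algebraMap R D) := FaithfulSMul.algebraMap_injective R D
  have hb : Birational R D := by
    intro d
    obtain ⟨a, b, hb, hab⟩ := IsFractionRing.div_surjective (A := R) (d : K)
    refine ⟨b, nonZeroDivisors.ne_zero hb, a, ?_⟩
    apply Subtype.ext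
    change algebraMap R K a = algebraMap R K b * (d : K)
    rw [← hab, mul_div_cancel₀]
    rw [Ne, FaithfulSMul.algebraMap_eq_zero_iff]
    exact nonZeroDivisors.ne_zero hb
  have hfin : Module.Finite R D := finite_bir hb hx hxm
  have hnoeth : IsNoetherianRing D := IsNoetherianRing.of_finite R D
  have hdimR : Ring.DimensionLEOne R := ⟨fun {p} hp hp' => hp'.isMaximal_of_ne_bot hp⟩
  have hdim : Ring.DimensionLEOne D := Ring.DimensionLEOne.integralClosure R K
  have halg : Algebra.IsAlgebraic R K := IsLocalization.isAlgebraic K (nonZeroDivisors R)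
  have hfr : IsFractionRing D K := integralClosure.isFractionRing_of_algebraic (A := R) (L := K) (by
    intro x hx
    exact (FaithfulSMul.algebraMap_eq_zero_iff R K).mp hx)
  have hded : IsDedekindDomain D := by
    rw [isDedekindDomain_iff D K]
    refine ⟨inferInstance, hnoeth, hdim, ?_⟩
    intro z hz
    have : IsIntegral R z := isIntegral_trans (R := R) (A := D) z hz
    exact ⟨⟨z, this⟩, rfl⟩
  have hmax : {I : Ideal D | I.IsMaximal}.Finite := by
    have h1 := IsDedekindDomain.primesOver_finite (maximalIdeal R) D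
    refine h1.subset ?_
    intro I hI
    have hI' : I.IsMaximal := hI
    refine ⟨hI'.isPrime, ⟨?_⟩⟩
    have h2 := Ideal.isMaximal_comap_of_isIntegral_of_isMaximal (R := R) I
    exact (IsLocalRing.eq_maximalIdeal h2).symm
  obtain ⟨c, hc, hcd⟩ := common_den hb ⊤ hfin.fg_top
  refine ⟨D, inferInstance, inferInstance, inferInstance,
    IsPrincipalIdealRing.of_finite_maximals hmax, hfin, hinj, fun z hz => mem_jacobson hz,
    x * c, Ideal.mul_mem_right _ _ hxm, mul_ne_zero hx hc, ?_⟩
  intro d
  obtain ⟨r, hr⟩ := hcd d trivial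
  exact ⟨x * r, by rw [map_mul, map_mul, hr, mul_assoc]⟩

end Pool.Agent.TH282.RG
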