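import Pool.Agent.TH282.RG.Emb

/-!
# The domain case
-/

set_option autoImplicit false
set_option linter.unusedSectionVars false

namespace Pool.Agent.TH282.RG

universe u v

open IsLocalRing TensorProduct

/-- finitely many rigid lattices in one finite projective module over the overring -/
theorem fin_lat (k : Type v) [Field k] {R : Type u} [CommRing R] [IsNoetherianRing R]
    [IsLocalRing R] [Ring.KrullDimLE 1 R] [Algebra k R] [Module.Finite k (ResidueField R)]
    {D F : Type u} [CommRing D] [Algebra R D] [AddCommGroup F] [Module D F]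
    [Module R F] [IsScalarTower R D F] [Module.Finite D F] [Module.Projective D F] [Module.Finite R F]
    (y : R) (hy : y ∈ nonZeroDivisors R)
    (hyc : ∀ d : D, ∃ r : R, algebraMap R D r = algebraMap R D y * d)
    (hyJ : algebraMap R D y ∈ (⊥ : Ideal D).jacobson) (hyF : ∀ f : F, y • f = 0 → f = 0) :
    ∃ T : Set (Submodule R F), T.Finite ∧ ∀ M : Submodule R F, Submodule.span D (M : Set F) = ⊤ →
      Rigid R M → ∃ M₀ ∈ T, Nonempty (M₀ ≃ₗ[R] M) := by
  let _ : Algebra k D := ((algebraMap R D).comp (algebraMap k R)).toAlgebra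
  have : IsScalarTower k R D := IsScalarTower.of_algebraMap_eq (fun _ => rfl)
  let _ : Module k F := Module.compHom F (algebraMap k R)
  have : IsScalarTower k R F := ⟨fun a r f => by
    change (a • r) • f = algebraMap k R a • (r • f)
    rw [Algebra.smul_def, mul_smul]⟩
  have : IsScalarTower k D F := ⟨fun a d f => by
    change (a • d) • f = algebraMap k R a • (d • f)
    rw [Algebra.smul_def, ← algebraMap_smul D (algebraMap k R a) (d • f), smul_smul]
    rfl⟩
  let Y : Submodule D F := LinearMap.range (LinearMap.lsmul D F (algebraMap R D y))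
  have hY : ∀ f, f ∈ Y ↔ ∃ g, y • g = f := by
    intro f
    constructor
    · rintro ⟨g, hg⟩
      refine ⟨g, ?_⟩
      rw [← algebraMap_smul D y g]
      exact hg
    · rintro ⟨g, rfl⟩
      refine ⟨g, ?_⟩
      rw [← algebraMap_smul D y g]
      rfl
  have hfl : IsFiniteLength R (F ⧸ Y) := by
    apply finiteLength_of_killed y (isFiniteLength_quotient_span_singleton R hy)
    intro q
    obtain ⟨f, rfl⟩ := Y.mkQ_surjective q
    change Y.mkQ (y • f) = 0
    rw [Submodule.mkQ_apply, Submodule.Quotient.mk_eq_zero, hY]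
    exact ⟨f, rfl⟩
  have : FiniteDimensional k (F ⧸ Y) := finite_of_finiteLength (k := k) hfl
  exact finB (k := k) Y y hyc hyJ hyF hY

theorem main_dom (k : Type v) [Field k] {R : Type u} [CommRing R] [IsDomain R] [IsNoetherianRing R]
    [IsLocalRing R] [Ring.KrullDimLE 1 R] [Algebra k R] [Module.Finite k (ResidueField R)]
    [IsPrecomplete (maximalIdeal R) R] {x : R} (hx : x ≠ 0) (hxm : x ∈ maximalIdeal R) (N : ℕ) :
    ∃ S : Set (Σ n : ℕ, Submodule R (Fin n → R)), S.Finite ∧
      ∀ (M : Type u) [AddCommGroup M] [Module R M], Module.Finite R M →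
        (∀ z : R, z ≠ 0 → ∀ m : M, z • m = 0 → m = 0) → Rigid R M → Module.finrank R M ≤ N →
        ∃ p ∈ S, Nonempty (M ≃ₗ[R] (Fin p.1 → R) ⧸ p.2) := by
  classical
  obtain ⟨D, _, _, _, hpid, hfin, hinj, hjac, y, hym, hy0, hyc⟩ := exists_norm R hx hxm
  have : FaithfulSMul R D := (faithfulSMul_iff_algebraMap_injective R D).mpr hinj
  have hyD : algebraMap R D y ≠ 0 := by
    rwa [Ne, FaithfulSMul.algebraMap_eq_zero_iff]
  have hT : ∀ s : ℕ, ∃ T : Set (Submodule R (Fin s → D)), T.Finite ∧
      ∀ M : Submodule R (Fin s → D), Submodule.span D (M : Set (Fin s → D)) = ⊤ →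
      Rigid R M → ∃ M₀ ∈ T, Nonempty (M₀ ≃ₗ[R] M) := by
    intro s
    refine fin_lat k y (mem_nonZeroDivisors_of_ne_zero hy0) hyc (hjac y hym) ?_
    intro f hf
    ext i
    have h1 : y • f i = 0 := congrFun hf i
    rw [Algebra.smul_def, mul_eq_zero] at h1
    exact h1.resolve_left hyD
  choose T hT1 hT2 using hT
  have hpres : ∀ (s : ℕ) (M₀ : Submodule R (Fin s → D)), ∃ p : Σ n : ℕ, Submodule R (Fin n → R),
      Nonempty (M₀ ≃ₗ[R] (Fin p.1 → R) ⧸ p.2) := fun s M₀ => exists_pres M₀
  choose p hp using hpres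
  refine ⟨⋃ s ∈ Finset.range (N + 1), (fun M₀ => p s M₀) '' T s, ?_, ?_⟩
  · exact Set.Finite.biUnion (Finset.finite_toSet _) fun s _ => (hT1 s).image _
  · intro M _ _ hMf hMt hMr hMN
    obtain ⟨s, ι, hι, hι0⟩ := exists_embed_free R D M
    have hιinj : Function.Injective ι := by
      rw [injective_iff_map_eq_zero]
      intro m hm
      obtain ⟨a, ha, ham⟩ := hι0 m hm
      -- the linear map `D → R`
      have hρ : ∀ d : D, ∃ r : R, algebraMap R D r = algebraMap R D y * d := hyc
      choose ρ hρ using hρ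
      let ρ' : D →ₗ[R] R :=
        { toFun := ρ
          map_add' := fun a b => hinj (by rw [map_add, hρ, hρ, hρ, mul_add])
          map_smul' := fun r a => hinj (by
            rw [RingHom.id_apply, smul_eq_mul, map_mul, hρ, hρ, Algebra.smul_def]
            ring) }
      let μ : D ⊗[R] M →ₗ[R] M := TensorProduct.lift ((LinearMap.lsmul R M).comp ρ')
      have h1 : μ (a ⊗ₜ[R] m) = ρ a • m := by
        simp [μ, ρ']
      rw [ham, map_zero] at h1
      refine hMt (ρ a) ?_ m h1.symm
      intro h2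
      have h3 := hρ a
      rw [h2, map_zero] at h3
      exact mul_ne_zero hyD ha h3.symm
    have hs : s ≤ Module.finrank R M := rank_le ι hι y hy0 hyc
    let e : M ≃ₗ[R] LinearMap.range ι := LinearEquiv.ofInjective ι hιinj
    obtain ⟨M₀, hM₀, ⟨e'⟩⟩ := hT2 s (LinearMap.range ι) hι (hMr.of_equiv e)
    refine ⟨p s M₀, ?_, ⟨e.trans (e'.symm.trans (hp s M₀).some)⟩⟩
    simp only [Set.mem_iUnion]
    exact ⟨s, Finset.mem_range.mpr (by omega), M₀, hM₀, rfl⟩

end Pool.Agent.TH282.RG
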