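import Pool.Agent.TH282.RG.Fl

/-!
# Torsion-free modules as lattices in free modules over the normalisation
-/

set_option autoImplicit false
set_option linter.unusedSectionVars false

namespace Pool.Agent.TH282.RG

universe u v

open IsLocalRing TensorProduct

theorem exists_embed_free (R D M : Type*) [CommRing R] [CommRing D] [IsDomain D]
    [IsPrincipalIdealRing D] [Algebra R D] [AddCommGroup M] [Module R M] [Module.Finite R M] :
    ∃ (s : ℕ) (ι : M →ₗ[R] (Fin s → D)), Submodule.span D (Set.range ι) = ⊤ ∧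
      ∀ m : M, ι m = 0 → ∃ a : D, a ≠ 0 ∧ a ⊗ₜ[R] m = 0 := by
  let T := D ⊗[R] M
  let N := T ⧸ Submodule.torsion D T
  obtain ⟨s, b⟩ : Σ n, Module.Basis (Fin n) D N := Module.basisOfFiniteTypeTorsionFree'
  let q : T →ₗ[D] (Fin s → D) := b.equivFun.toLinearMap ∘ₗ (Submodule.torsion D T).mkQ
  have hq : Function.Surjective q := b.equivFun.surjective.comp (Submodule.mkQ_surjective _)
  let ι : M →ₗ[R] (Fin s → D) := (q.restrictScalars R) ∘ₗ (TensorProduct.mk R D M 1)
  refine ⟨s, ι, ?_, ?_⟩
  · rw [eq_top_iff]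
    intro f _
    obtain ⟨t, rfl⟩ := hq f
    induction t using TensorProduct.induction_on with
    | zero => rw [map_zero]; exact Submodule.zero_mem _
    | tmul d m =>
      have : d ⊗ₜ[R] m = d • ((1 : D) ⊗ₜ[R] m) := by
        rw [TensorProduct.smul_tmul', smul_eq_mul, mul_one]
      rw [this, map_smul]
      exact Submodule.smul_mem _ _ (Submodule.subset_span ⟨m, rfl⟩)
    | add x y hx hy =>
      rw [map_add]
      exact Submodule.add_mem _ (hx trivial) (hy trivial)
  · intro m hm
    have h1 : b.equivFun ((Submodule.torsion D T).mkQ ((1 : D) ⊗ₜ[R] m)) = 0 := hm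
    rw [LinearEquiv.map_eq_zero_iff, Submodule.mkQ_apply, Submodule.Quotient.mk_eq_zero,
      Submodule.mem_torsion_iff] at h1
    obtain ⟨a, ha⟩ := h1
    refine ⟨a, nonZeroDivisors.ne_zero a.2, ?_⟩
    have h2 : (a : D) • ((1 : D) ⊗ₜ[R] m) = 0 := ha
    rwa [TensorProduct.smul_tmul', smul_eq_mul, mul_one] at h2

/-- a rank bound: the standard vectors scaled by `y` -/
theorem rank_le {R D : Type u} {M : Type*} [CommRing R] [CommRing D] [Algebra R D] [FaithfulSMul R D]
    [AddCommGroup M] [Module R M] [Module.Finite R M] [IsDomain R] {s : ℕ} (ι : M →ₗ[R] (Fin s → D))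
    (hι : Submodule.span D (Set.range ι) = ⊤) (y : R) (hy : y ≠ 0)
    (hyc : ∀ d : D, ∃ r : R, algebraMap R D r = algebraMap R D y * d) : s ≤ Module.finrank R M := by
  have h1 : ∀ f : Fin s → D, ∃ m, ι m = y • f := by
    intro f
    exact smul_mem_lat y hyc (LinearMap.range ι) hι f
  have h2 : ∀ i : Fin s, ∃ m, ι m = y • Pi.single i (1 : D) := fun i => h1 _
  choose w hw using h2
  have h3 : LinearIndependent R w := by
    apply LinearIndependent.of_comp ι
    rw [Fintype.linearIndependent_iff]
    intro c hc i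
    have h4 := congrFun hc i
    simp only [Function.comp_apply, hw, Finset.sum_apply, Pi.smul_apply, Pi.zero_apply] at h4
    rw [Finset.sum_eq_single i] at h4
    · rw [Pi.single_eq_same, smul_smul, Algebra.smul_def, mul_one,
        FaithfulSMul.algebraMap_eq_zero_iff, mul_eq_zero] at h4
      exact h4.resolve_right hy
    · intro j _ hj
      rw [Pi.single_eq_of_ne hj.symm, smul_zero, smul_zero]
    · intro h
      exact absurd (Finset.mem_univ i) h
  have := h3.fintype_card_le_finrank
  rwa [Fintype.card_fin] at this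

end Pool.Agent.TH282.RG
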