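import Pool.Agent.TH282.RG.Core

/-!
# Finitely many rigid stable subspaces up to the commuting units: matrix form
-/

set_option autoImplicit false
set_option linter.unusedSectionVars false

namespace Pool.Agent.TH282.RG

open Matrix

section

variable {k : Type*} [Field k] {n : Type*} [Fintype n] [DecidableEq n]
  (ρ : Set (Matrix n n k)) (B : Submodule k (Matrix n n k))

/-- idempotents with stable image -/
def Pts : Type _ := {a : Matrix n n k // a * a = a ∧ ∀ r ∈ ρ, (1 - a) * r * a = 0}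

/-- the coordinate ring -/
def Crd : Subalgebra k (Pts ρ → k) :=
  Algebra.adjoin k (Set.range fun ij : n × n => fun a : Pts ρ => a.1 ij.1 ij.2)

instance : IsNoetherianRing (Crd ρ) := by
  apply isNoetherianRing_of_fg
  exact Subalgebra.fg_def.mpr ⟨_, Set.finite_range _, rfl⟩

/-- the tautological idempotent -/
def PP : Matrix n n (Crd ρ) :=
  Matrix.of fun i j => ⟨fun a => a.1 i j, Algebra.subset_adjoin ⟨(i, j), rfl⟩⟩

/-- evaluation at a point -/
def ev (a : Pts ρ) : Crd ρ →ₐ[k] k := (Pi.evalAlgHom k (fun _ => k) a).comp (Crd ρ).val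

theorem PP_map (a : Pts ρ) : (PP ρ).map (ev ρ a) = a.1 := rfl

theorem ext_pts {f g : Crd ρ} (h : ∀ a, ev ρ a f = ev ρ a g) : f = g :=
  Subtype.ext (funext h)

theorem ext_mat {M N : Matrix n n (Crd ρ)} (h : ∀ a, M.map (ev ρ a) = N.map (ev ρ a)) : M = N := by
  apply Matrix.ext
  intro i j
  exact ext_pts ρ fun a => congrFun (congrFun (h a) i) j

theorem map_mul' (φ : Crd ρ →ₐ[k] k) (M N : Matrix n n (Crd ρ)) :
    (M * N).map φ = M.map φ * N.map φ := by
  ext i j
  simp [Matrix.mul_apply]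

theorem map_one' (φ : Crd ρ →ₐ[k] k) : (1 : Matrix n n (Crd ρ)).map φ = 1 := by
  ext i j
  simp [Matrix.one_apply, apply_ite φ]

theorem map_sub' (φ : Crd ρ →ₐ[k] k) (M N : Matrix n n (Crd ρ)) :
    (M - N).map φ = M.map φ - N.map φ := by
  ext i j
  simp

theorem map_hat' (φ : Crd ρ →ₐ[k] k) (M : Matrix n n k) : (hat (Crd ρ) M).map φ = M := by
  ext i j
  simp [hat]

theorem PP_idem : PP ρ * PP ρ = PP ρ := by
  apply ext_mat
  intro a
  rw [map_mul', PP_map]
  exact a.2.1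

theorem PP_stab (r : Matrix n n k) (hr : r ∈ ρ) : (1 - PP ρ) * hat (Crd ρ) r * PP ρ = 0 := by
  apply ext_mat
  intro a
  rw [map_mul', map_mul', map_sub', PP_map, map_one', map_hat', a.2.2 r hr]
  ext i j
  simp

theorem fin_matrix (h1 : (1 : Matrix n n k) ∈ B) (hB : ∀ b ∈ B, ∀ r ∈ ρ, b * r = r * b) :
    ∃ S : Set (Matrix n n k), S.Finite ∧
      (∀ a ∈ S, a * a = a ∧ ∀ r ∈ ρ, (1 - a) * r * a = 0) ∧
      ∀ a : Matrix n n k, a * a = a → (∀ r ∈ ρ, (1 - a) * r * a = 0) → Rig ρ B a →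
        ∃ a₀ ∈ S, a₀.rank = a.rank ∧ ∃ b ∈ B, IsUnit b ∧ (1 - a) * b * a₀ = 0 := by
  classical
  have hG : ∀ a : {a : Pts ρ // Rig ρ B a.1}, ∃ G ∈ BC (Crd ρ) B,
      (1 - PP ρ) * G * hat (Crd ρ) a.1.1 = 0 ∧ G.map (ev ρ a.1) = 1 := fun a =>
    exists_G (ev ρ a.1) h1 (PP_idem ρ) (PP_stab ρ) hB a.2
  choose G hG1 hG2 hG3 using hG
  -- the ideals
  have hI : ∀ d : ℕ, ∃ s : Finset {a : Pts ρ // Rig ρ B a.1},
      (∀ a ∈ s, (a.1.1 : Matrix n n k).rank = d) ∧
      ∀ a : {a : Pts ρ // Rig ρ B a.1}, (a.1.1 : Matrix n n k).rank = d →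
        (G a).det ∈ Ideal.span ((fun a => (G a).det) '' (s : Set {a : Pts ρ // Rig ρ B a.1})) := by
    intro d
    set X : Set (Crd ρ) := (fun a => (G a).det) '' {a | (a.1.1 : Matrix n n k).rank = d} with hX
    obtain ⟨t, ht, hts⟩ := (Submodule.fg_span_iff_fg_span_finset_subset X).mp
      (IsNoetherian.noetherian (Submodule.span (Crd ρ) X))
    have : ∀ f ∈ t, ∃ a : {a : Pts ρ // Rig ρ B a.1},
        (a.1.1 : Matrix n n k).rank = d ∧ (G a).det = f := fun f hf => ht hf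
    choose α hα1 hα2 using this
    refine ⟨t.attach.image fun f => α f.1 f.2, ?_, ?_⟩
    · intro a ha
      rw [Finset.mem_image] at ha
      obtain ⟨f, _, rfl⟩ := ha
      exact hα1 f.1 f.2
    · intro a ha
      have h3 : (G a).det ∈ Submodule.span (Crd ρ) X := Submodule.subset_span ⟨a, ha, rfl⟩
      rw [hts] at h3
      refine Submodule.span_mono ?_ h3
      intro f hf
      refine ⟨α f hf, ?_, hα2 f hf⟩
      rw [Finset.mem_coe, Finset.mem_image]
      exact ⟨⟨f, hf⟩, Finset.mem_attach _ _, rfl⟩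
  choose s hs1 hs2 using hI
  refine ⟨⋃ d ∈ Finset.range (Fintype.card n + 1),
    (fun a : {a : Pts ρ // Rig ρ B a.1} => (a.1.1 : Matrix n n k)) ''
      (s d : Set {a : Pts ρ // Rig ρ B a.1}), ?_, ?_, ?_⟩
  · exact Set.Finite.biUnion (Finset.finite_toSet _) fun d _ => (Finset.finite_toSet _).image _
  · intro a ha
    simp only [Set.mem_iUnion] at ha
    obtain ⟨d, _, b, _, rfl⟩ := ha
    exact b.1.2
  · intro a ha1 ha2 ha3
    let A : {a : Pts ρ // Rig ρ B a.1} := ⟨⟨a, ha1, ha2⟩, ha3⟩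
    have h4 := hs2 a.rank A rfl
    have h5 : ∃ c ∈ s a.rank, ev ρ A.1 (G c).det ≠ 0 := by
      by_contra hcon
      push Not at hcon
      have h6 : Ideal.span ((fun a => (G a).det) '' (s a.rank : Set {a : Pts ρ // Rig ρ B a.1})) ≤
          RingHom.ker (ev ρ A.1) := by
        rw [Ideal.span_le]
        rintro _ ⟨c, hc, rfl⟩
        exact hcon c hc
      have h7 : ev ρ A.1 (G A).det = 0 := h6 h4
      have h8 : ev ρ A.1 (G A).det = ((G A).map (ev ρ A.1)).det :=
        (RingHom.map_det (ev ρ A.1 : Crd ρ →+* k) (G A))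
      rw [h8, hG3 A, Matrix.det_one] at h7
      exact one_ne_zero h7
    obtain ⟨c, hc, hc'⟩ := h5
    refine ⟨c.1.1, ?_, hs1 _ c hc, (G c).map (ev ρ A.1), BC_eval _ (hG1 c), ?_, ?_⟩
    · simp only [Set.mem_iUnion]
      refine ⟨a.rank, ?_, c, hc, rfl⟩
      rw [Finset.mem_range]
      exact Nat.lt_succ_of_le (by
        have := Matrix.rank_le_card_width a
        exact this)
    · rw [Matrix.isUnit_iff_isUnit_det, isUnit_iff_ne_zero]
      have h8 : ev ρ A.1 (G c).det = ((G c).map (ev ρ A.1)).det :=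
        (RingHom.map_det (ev ρ A.1 : Crd ρ →+* k) (G c))
      rwa [← h8]
    · have h9 := congrArg (fun M : Matrix n n (Crd ρ) => M.map (ev ρ A.1)) (hG2 c)
      change ((1 - PP ρ) * G c * hat (Crd ρ) c.1.1).map (ev ρ A.1) =
        (0 : Matrix n n (Crd ρ)).map (ev ρ A.1) at h9
      rw [map_mul', map_mul', map_sub', PP_map, map_one', map_hat'] at h9
      rw [h9]
      ext i j
      simp

end

end Pool.Agent.TH282.RG
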