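import Pool.Agent.TH282.RG.Fin

/-!
# Finitely many rigid stable subspaces up to the commuting units: coordinate-free form
-/

set_option autoImplicit false

namespace Pool.Agent.TH282.RG

open Matrix

section

variable {k V : Type*} [Field k] [AddCommGroup V] [Module k V] [FiniteDimensional k V]

/-- rigidity of a subspace `L` with respect to the operators in `ρ` and the commuting space `B` -/
def RigSub (ρ : Set (Module.End k V)) (B : Submodule k (Module.End k V)) (L : Submodule k V) : Prop :=
  ∀ g : Module.End k V, (∀ r ∈ ρ, ∀ x ∈ L, g (r x) - r (g x) ∈ L) → ∃ b ∈ B, ∀ x ∈ L, g x - b x ∈ L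

theorem fin_sub (ρ : Set (Module.End k V)) (B : Submodule k (Module.End k V))
    (h1 : (1 : Module.End k V) ∈ B) (hB : ∀ b ∈ B, ∀ r ∈ ρ, b * r = r * b) :
    ∃ S : Set (Submodule k V), S.Finite ∧ (∀ L ∈ S, ∀ r ∈ ρ, ∀ x ∈ L, r x ∈ L) ∧
      ∀ L : Submodule k V, (∀ r ∈ ρ, ∀ x ∈ L, r x ∈ L) → RigSub ρ B L →
        ∃ L₀ ∈ S, ∃ b ∈ B, Function.Bijective b ∧ L₀.map b = L := by
  classical
  let v := Module.finBasis k V
  let e : Module.End k V ≃ₐ[k] Matrix (Fin (Module.finrank k V)) (Fin (Module.finrank k V)) k :=
    LinearMap.toMatrixAlgEquiv v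
  obtain ⟨S, hS1, hS2, hS3⟩ := fin_matrix (e '' ρ) (B.map e.toLinearMap)
    ⟨1, h1, map_one e⟩ (by
      rintro _ ⟨b, hb, rfl⟩ _ ⟨r, hr, rfl⟩
      change e b * e r = e r * e b
      rw [← map_mul, ← map_mul, hB b hb r hr])
  have hrank : ∀ a : Module.End k V, (e a).rank = Module.finrank k (LinearMap.range a) := by
    intro a
    change (LinearMap.toMatrix v v a).rank = _
    rw [Matrix.rank_eq_finrank_range_toLin _ v v, Matrix.toLin_toMatrix]
  refine ⟨(fun a => LinearMap.range (e.symm a)) '' S, hS1.image _, ?_, ?_⟩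
  · rintro _ ⟨a, ha, rfl⟩ r hr x ⟨y, rfl⟩
    obtain ⟨_, h3⟩ := hS2 a ha
    have h4 := h3 (e r) ⟨r, hr, rfl⟩
    have h5 : (1 - e.symm a) * r * e.symm a = 0 := by
      apply e.injective
      rw [map_mul, map_mul, map_sub, map_one, e.apply_symm_apply, h4, map_zero]
    have h6 := LinearMap.congr_fun h5 y
    simp only [Module.End.mul_apply, LinearMap.sub_apply, Module.End.one_apply, LinearMap.zero_apply,
      sub_eq_zero] at h6
    exact ⟨r (e.symm a y), h6.symm⟩
  · intro L hL hR
    obtain ⟨L', hL'⟩ := Submodule.exists_isCompl L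
    let a : Module.End k V := L.subtype ∘ₗ Submodule.projectionOnto L L' hL'
    have ha1 : ∀ x ∈ L, a x = x := by
      intro x hx
      change ((Submodule.projectionOnto L L' hL' x : L) : V) = x
      have := Submodule.projectionOnto_apply_left hL' ⟨x, hx⟩
      rw [this]
    have ha2 : ∀ x, a x ∈ L := fun x => (Submodule.projectionOnto L L' hL' x).2
    have ha3 : LinearMap.range a = L := by
      apply le_antisymm
      · rintro _ ⟨x, rfl⟩
        exact ha2 x
      · intro x hx
        exact ⟨x, ha1 x hx⟩
    have haa : a * a = a := by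
      ext x
      exact ha1 _ (ha2 x)
    have hst : ∀ r ∈ ρ, (1 - a) * r * a = 0 := by
      intro r hr
      ext x
      simp only [Module.End.mul_apply, LinearMap.sub_apply, Module.End.one_apply, LinearMap.zero_apply]
      rw [ha1 _ (hL r hr _ (ha2 x)), sub_self]
    obtain ⟨a₀, ha₀, hr, b, hb, hbu, hb0⟩ := hS3 (e a) (by rw [← map_mul, haa]) (by
      rintro _ ⟨r, hr, rfl⟩
      rw [← map_one e, ← map_sub, ← map_mul, ← map_mul, hst r hr, map_zero]) (by
      intro η h2 h3 h4
      obtain ⟨g, rfl⟩ := e.surjective η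
      rw [← map_one e, ← map_sub, ← map_mul] at h2
      rw [← map_mul] at h3
      have h2 := e.injective h2
      have h3 := e.injective h3
      obtain ⟨b, hb, hb'⟩ := hR g (by
        intro r hr x hx
        have h5 := h4 (e r) ⟨r, hr, rfl⟩
        rw [← map_one e, ← map_sub, ← map_mul, ← map_mul, ← map_mul, ← map_mul] at h5
        have h5 := LinearMap.congr_fun (e.injective h5) x
        simp only [Module.End.mul_apply, LinearMap.sub_apply, Module.End.one_apply, ha1 x hx] at h5
        have h6 : g (r x) - r (g x) = - a (r (g x)) := by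
          rw [← h5]
          abel
        rw [h6]
        exact neg_mem (ha2 _))
      refine ⟨e b, ⟨b, hb, rfl⟩, ?_⟩
      rw [← map_one e, ← map_sub, ← map_mul, ← map_mul]
      congr 1
      ext x
      have h7 := hb' (a x) (ha2 x)
      have h8 := ha1 _ h7
      have h9 := LinearMap.congr_fun h3 x
      have h10 := LinearMap.congr_fun h2 x
      simp only [Module.End.mul_apply, LinearMap.sub_apply, Module.End.one_apply] at h9 h10 ⊢
      rw [h9, map_sub] at h8
      have h11 : a (g x) = 0 := by
        rw [sub_eq_self] at h10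
        exact h10
      rw [h11] at h8
      calc b (a x) - a (b (a x)) = b (a x) + (0 - a (b (a x))) := by abel
        _ = b (a x) + (g x - b (a x)) := by rw [h8]
        _ = g x := by abel)
    obtain ⟨b, hb, rfl⟩ := hb
    change IsUnit (e b) at hbu
    change (1 - e a) * e b * a₀ = 0 at hb0
    have hbu' : IsUnit b := by
      have := hbu.map e.symm
      rwa [e.symm_apply_apply] at this
    have hbij : Function.Bijective b := (Module.End.isUnit_iff b).mp hbu'
    refine ⟨_, ⟨a₀, ha₀, rfl⟩, b, hb, hbij, ?_⟩
    have h12 : (1 - a) * b * e.symm a₀ = 0 := by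
      apply e.injective
      rw [map_mul, map_mul, map_sub, map_one, e.apply_symm_apply, hb0, map_zero]
    apply Submodule.eq_of_le_of_finrank_eq
    · rintro _ ⟨_, ⟨x, rfl⟩, rfl⟩
      have := LinearMap.congr_fun h12 x
      simp only [Module.End.mul_apply, LinearMap.sub_apply, Module.End.one_apply,
        LinearMap.zero_apply, sub_eq_zero] at this
      rw [this]
      exact ha2 _
    · rw [(Submodule.equivMapOfInjective b hbij.1 _).symm.finrank_eq, ← hrank, e.apply_symm_apply, hr,
        hrank, ha3]

end

end Pool.Agent.TH282.RG
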